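import Pool.Agent.H30H.Back
import Pool.Agent.N783.PF.Loc
import Pool.Agent.N891.PQ.TwA
import Pool.Agent.N667.PV.Ext

/-!
# The conditions at the places above two and infinity
-/

set_option autoImplicit false
set_option linter.all false

open Polynomial IsDedekindDomain NumberField Module
open scoped Classical IntermediateField

namespace Pool.Agent.H30H

open Pool.Agent.N692.PMTOW (im)
open Pool.Agent.N783.PF
open Pool.Agent.N783.PQ (LocIm)

section locim

variable {E : Type} [Field E]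

theorem prod_map {E' : Type} [Field E'] (φ : E →+* E') (l : List (E[X] × E[X])) :
    (((l.map fun p => (p.1.map φ, p.2.map φ)).map fun p : E'[X] × E'[X] =>
      (-1) ^ p.1.natDegree * p.1).prod : E'[X]) =
    ((l.map fun p : E[X] × E[X] => (-1) ^ p.1.natDegree * p.1).prod : E[X]).map φ := by
  induction l with
  | nil => simp
  | cons p l ih =>
    rw [List.map_cons, List.map_cons, List.prod_cons, ih, List.map_cons, List.prod_cons,
      Polynomial.map_mul, Polynomial.map_mul, Polynomial.map_pow, Polynomial.map_neg,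
      Polynomial.map_one, natDegree_map]

theorem locIm_map {E' : Type} [Field E'] (φ : E →+* E') {f h : E[X]} (H : LocIm E f h) :
    LocIm E' (f.map φ) (h.map φ) := by
  obtain ⟨l, s, h1, h2⟩ := H
  refine ⟨l.map fun p => (p.1.map φ, p.2.map φ), s.map φ, ?_, ?_⟩
  · intro p' hp'
    obtain ⟨p, hp, rfl⟩ := List.mem_map.1 hp'
    obtain ⟨a, b, c⟩ := h1 p hp
    refine ⟨a.map φ, b.map (mapRingHom φ), ?_⟩
    have := map_dvd (mapRingHom φ) c
    simpa using this
  · rw [prod_map]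
    have := map_dvd (mapRingHom φ) h2
    simpa using this

theorem locIm_congr {f h h' : E[X]} (H : LocIm E f h) (hd : f ∣ h' - h) : LocIm E f h' := by
  obtain ⟨l, s, h1, h2⟩ := H
  refine ⟨l, s, h1, ?_⟩
  have e : h' * (l.map fun p => (-1) ^ p.1.natDegree * p.1).prod - s ^ 2 =
      (h' - h) * (l.map fun p => (-1) ^ p.1.natDegree * p.1).prod +
      (h * (l.map fun p => (-1) ^ p.1.natDegree * p.1).prod - s ^ 2) := by ring
  rw [e]
  exact dvd_add (hd.mul_right _) h2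

theorem locIm_sq {f h : E[X]} : LocIm E f (h ^ 2) :=
  ⟨[], h, fun p hp => absurd hp (List.not_mem_nil), by simp⟩

end locim

section ce

variable {F M Ω E : Type} [Field F] [Field M] [Field Ω] [Field E] [Algebra F M] [Algebra M Ω]

/-- The condition at the homomorphism `φ`. -/
def CE (p : F[X]) (θ : Ω) (φ : M →+* E) (x : Ω) : Prop :=
  ∀ h : M[X], aeval θ h = x → LocIm E ((p.map (algebraMap F M)).map φ) (h.map φ)

variable {p : F[X]} {θ : Ω} {φ : M →+* E}

theorem ce_of (hmin : minpoly M θ = p.map (algebraMap F M)) {x : Ω} {h₀ : M[X]}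
    (h1 : aeval θ h₀ = x) (h2 : LocIm E ((p.map (algebraMap F M)).map φ) (h₀.map φ)) :
    CE p θ φ x := by
  intro h hh
  refine locIm_congr h2 ?_
  have h3 : minpoly M θ ∣ h - h₀ := minpoly.dvd M θ (by rw [map_sub, hh, h1, sub_self])
  rw [hmin] at h3
  have := Polynomial.map_dvd φ h3
  rwa [Polynomial.map_sub] at this

theorem exists_rep [Algebra.IsAlgebraic M Ω] (htop : M⟮θ⟯ = ⊤) (x : Ω) :
    ∃ h : M[X], aeval θ h = x := by
  have h1 : x ∈ Algebra.adjoin M {θ} := by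
    have h2 := IntermediateField.adjoin_simple_toSubalgebra_of_isAlgebraic
      (Algebra.IsAlgebraic.isAlgebraic (R := M) θ)
    rw [← h2, htop]
    trivial
  rw [Algebra.adjoin_singleton_eq_range_aeval] at h1
  obtain ⟨h, hh⟩ := h1
  exact ⟨h, hh⟩

theorem ce_sq [Algebra.IsAlgebraic M Ω] (htop : M⟮θ⟯ = ⊤)
    (hmin : minpoly M θ = p.map (algebraMap F M)) (x : Ω) : CE p θ φ (x ^ 2) := by
  obtain ⟨h, rfl⟩ := exists_rep htop x
  refine ce_of hmin (h₀ := h ^ 2) (by rw [map_pow]) ?_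
  rw [Polynomial.map_pow]
  exact locIm_sq

theorem ce_mul [Algebra.IsAlgebraic M Ω] (htop : M⟮θ⟯ = ⊤)
    (hmin : minpoly M θ = p.map (algebraMap F M)) {x y : Ω} (hx : CE p θ φ x)
    (hy : CE p θ φ y) : CE p θ φ (x * y) := by
  obtain ⟨h, rfl⟩ := exists_rep htop x
  obtain ⟨h', rfl⟩ := exists_rep htop y
  refine ce_of hmin (h₀ := h * h') (by rw [map_mul]) ?_
  rw [Polynomial.map_mul]
  exact Pool.Agent.N891.PQ.LocIm.mul (hx h rfl) (hy h' rfl)

theorem ce_sig [Algebra.IsAlgebraic M Ω] (htop : M⟮θ⟯ = ⊤)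
    (hmin : minpoly M θ = p.map (algebraMap F M)) {E' : Type} [Field E'] {φ' : M →+* E'}
    (ψ : E' →+* E) (σ : Ω →+* Ω) (τ : M →+* M)
    (hτ : ∀ m, algebraMap M Ω (τ m) = σ (algebraMap M Ω m)) (hθ : σ θ = θ)
    (hF : ∀ a : F, τ (algebraMap F M a) = algebraMap F M a) (hψ : ∀ m, ψ (φ' m) = φ (τ m))
    {x : Ω} (hx : CE p θ φ' x) : CE p θ φ (σ x) := by
  obtain ⟨h, rfl⟩ := exists_rep htop x
  refine ce_of hmin (h₀ := h.map τ) ?_ ?_
  · rw [aeval_def, eval₂_map, aeval_def, hom_eval₂, hθ]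
    congr 1
    exact RingHom.ext hτ
  · have h1 := locIm_map ψ (hx h rfl)
    have e1 : ψ.comp φ' = φ.comp τ := RingHom.ext hψ
    rw [Polynomial.map_map, Polynomial.map_map, Polynomial.map_map, e1] at h1
    rw [Polynomial.map_map, Polynomial.map_map]
    have e2 : (φ.comp τ).comp (algebraMap F M) = φ.comp (algebraMap F M) := by
      ext a
      exact congrArg φ (hF a)
    rw [e2] at h1
    exact h1

theorem ce_base {L : Type} [Field L] [Algebra F L] [Algebra L Ω] [Algebra F Ω]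
    [IsScalarTower F L Ω] [IsScalarTower F M Ω] {θ₀ : L} {E₀ : Type} [Field E₀] (ψ : E →+* E₀)
    (φ₀ : F →+* E₀) (hψ : ∀ a : F, ψ (φ (algebraMap F M a)) = φ₀ a) {h₀ : F[X]}
    (hx : CE p (algebraMap L Ω θ₀) φ (algebraMap L Ω (aeval θ₀ h₀))) :
    LocIm E₀ (p.map φ₀) (h₀.map φ₀) := by
  have h1 := locIm_map ψ (hx (h₀.map (algebraMap F M))
    (by rw [aeval_map_algebraMap, aeval_algebraMap_apply]))
  rw [Polynomial.map_map, Polynomial.map_map, Polynomial.map_map, Polynomial.map_map] at h1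
  have e : (ψ.comp φ).comp (algebraMap F M) = φ₀ := RingHom.ext hψ
  rw [e] at h1
  exact h1

end ce

section c2

variable {F L M Ω : Type} [Field F] [NumberField F] [Field L] [NumberField L] [Field M]
  [NumberField M] [Field Ω] [NumberField Ω] [Algebra F L] [Algebra F M] [Algebra L Ω] [Algebra M Ω]
  [Algebra F Ω] [IsScalarTower F L Ω] [IsScalarTower F M Ω]

/-- The conditions at the places above two and infinity. -/
structure C2 (M : Type) [Field M] [NumberField M] [Algebra F M] [Algebra M Ω] (f : (𝓞 F)[X])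
    (θ x : Ω) : Prop where
  two : ∀ w : HeightOneSpectrum (𝓞 M), (2 : 𝓞 M) ∈ w.asIdeal →
    CE (fF f) θ (algebraMap M (w.adicCompletion M)) x
  real : ∀ ρ : M →+* ℝ, CE (fF f) θ ρ x

variable {f : (𝓞 F)[X]} {θ : Ω}

theorem c2_sq (htop : M⟮θ⟯ = ⊤) (hmin : minpoly M θ = (fF f).map (algebraMap F M)) (x : Ω) :
    C2 M f θ (x ^ 2) := by
  haveI : FiniteDimensional M Ω := Module.Finite.of_restrictScalars_finite ℚ M Ω
  haveI : Algebra.IsAlgebraic M Ω := inferInstance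
  exact ⟨fun w hw => ce_sq htop hmin x, fun ρ => ce_sq htop hmin x⟩

theorem c2_mul (htop : M⟮θ⟯ = ⊤) (hmin : minpoly M θ = (fF f).map (algebraMap F M)) {x y : Ω}
    (hx : C2 M f θ x) (hy : C2 M f θ y) : C2 M f θ (x * y) := by
  haveI : FiniteDimensional M Ω := Module.Finite.of_restrictScalars_finite ℚ M Ω
  haveI : Algebra.IsAlgebraic M Ω := inferInstance
  exact ⟨fun w hw => ce_mul htop hmin (hx.two w hw) (hy.two w hw),
    fun ρ => ce_mul htop hmin (hx.real ρ) (hy.real ρ)⟩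

theorem c2_sig [IsGalois F M] (htop' : im F M Ω ⊔ im F L Ω = ⊤) (htop : M⟮θ⟯ = ⊤)
    (hmin : minpoly M θ = (fF f).map (algebraMap F M)) {θ₀ : L} (hθ : θ = algebraMap L Ω θ₀)
    (σ : Ω ≃ₐ[L] Ω) {x : Ω} (hx : C2 M f θ x) : C2 M f θ (σ x) := by
  haveI : FiniteDimensional M Ω := Module.Finite.of_restrictScalars_finite ℚ M Ω
  haveI : Algebra.IsAlgebraic M Ω := inferInstance
  obtain ⟨τ, hτ, -⟩ := restr htop' σ
  have hσθ : (σ : Ω →+* Ω) θ = θ := by
    rw [hθ]
    exact σ.commutes θ₀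
  refine ⟨fun w hw => ?_, fun ρ => ?_⟩
  · obtain ⟨w', s, h1, h2⟩ := Pool.Agent.N667.PV.ext M (𝓞 M) (τ : M ≃+* M) w
    have hw' : (2 : 𝓞 M) ∈ w'.asIdeal := by
      have h3 := (h2 2).2 (by
        change ((2 : ℤ) : 𝓞 M) ∈ w.asIdeal
        exact_mod_cast hw)
      change ((2 : ℤ) : 𝓞 M) ∈ w'.asIdeal at h3
      exact_mod_cast h3
    exact ce_sig htop hmin s (σ : Ω →+* Ω) (τ : M →+* M) hτ hσθ (fun a => τ.commutes a) h1
      (hx.two w' hw')
  · exact ce_sig (φ' := ρ.comp (τ : M →+* M)) htop hmin (RingHom.id ℝ) (σ : Ω →+* Ω)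
      (τ : M →+* M) hτ hσθ (fun a => τ.commutes a) (fun m => rfl) (hx.real _)

theorem base_two {θ₀ : L} {h₀ : F[X]}
    (hx : C2 M f (algebraMap L Ω θ₀) (algebraMap L Ω (aeval θ₀ h₀)))
    (hspl : ∀ w : HeightOneSpectrum (𝓞 M), (2 : 𝓞 F) ∈ (w.under (𝓞 F)).asIdeal →
      UnrW F w ∧ ResW F w) (v : HeightOneSpectrum (𝓞 F)) (hv : (2 : 𝓞 F) ∈ v.asIdeal) :
    LocIm (v.adicCompletion F) ((fF f).map (algebraMap F (v.adicCompletion F)))
      (h₀.map (algebraMap F (v.adicCompletion F))) := by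
  obtain ⟨w, hw⟩ := Pool.Agent.H30EV.exists_above (Ω := M) v
  obtain ⟨hu, hr⟩ := hspl w (by rw [hw]; exact hv)
  have h2w : (2 : 𝓞 M) ∈ w.asIdeal := by
    have := (mem_under w (2 : 𝓞 F)).1 (by rw [hw]; exact hv)
    rwa [map_ofNat] at this
  obtain ⟨j, hj⟩ := exists_back v w (fun x => by rw [hu, hw]) (dens_of_res w hu hr)
  exact ce_base j _ hj (hx.two w h2w)

theorem base_real {θ₀ : L} {h₀ : F[X]}
    (hx : C2 M f (algebraMap L Ω θ₀) (algebraMap L Ω (aeval θ₀ h₀)))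
    (hreal : ∀ ρ : F →+* ℝ, ∃ ρ' : M →+* ℝ, ρ'.comp (algebraMap F M) = ρ) (ρ : F →+* ℝ) :
    LocIm ℝ ((fF f).map ρ) (h₀.map ρ) := by
  obtain ⟨ρ', rfl⟩ := hreal ρ
  exact ce_base (RingHom.id ℝ) _ (fun a => rfl) (hx.real ρ')

end c2

end Pool.Agent.H30H
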