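import Pool.Agent.H30H.Top
import Pool.Agent.H30H.Two
import Pool.Agent.N874.JM.Fld

/-!
# The 2-Selmer group over all the admissible extensions
-/

set_option autoImplicit false
set_option linter.all false

open Polynomial IsDedekindDomain NumberField Module
open scoped Classical IntermediateField

namespace Pool.Agent.H30H

open Pool.Agent.N692.PMTOW (im)
open Pool.Agent.N783.PF
open Pool.Agent.N783.PQ (LocIm)
open Pool.Agent.N874.PP (Ev Sq1 U0)
open Pool.Agent.N874.JM (LocF exists_field irr_up)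
open Pool.Agent.N78.PF (map_locF)
open Pool.Agent.N170.PF (irr_scale fF_scale)

/-- The field `M` is admissible for `f` and the primes in `J`. -/
structure AdmJ (F M : Type) [Field F] [NumberField F] [Field M] [NumberField M] [Algebra F M]
    (f : (𝓞 F)[X]) (J : Finset ℕ) : Prop where
  spl : ∀ w : HeightOneSpectrum (𝓞 M), ((2 : 𝓞 F) ∈ (w.under (𝓞 F)).asIdeal ∨
    ∃ q ∈ J, (q : 𝓞 F) ∈ (w.under (𝓞 F)).asIdeal) → UnrW F w ∧ ResW F w
  ram : ∀ w : HeightOneSpectrum (𝓞 M), ¬ UnrW F w → Irreducible (rd (w.under (𝓞 F)).asIdeal f)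
  real : ∀ ρ : F →+* ℝ, ∃ ρ' : M →+* ℝ, ρ'.comp (algebraMap F M) = ρ

section gen

variable {F M : Type} [Field F] [NumberField F] [Field M] [NumberField M] [Algebra F M]

theorem fF_map (f : (𝓞 F)[X]) :
    fF (f.map (algebraMap (𝓞 F) (𝓞 M))) = (fF f).map (algebraMap F M) := by
  rw [fF, fF, Polynomial.map_map, Polynomial.map_map]
  congr 1

theorem sc_map {f : (𝓞 F)[X]} (hm : f.Monic) (D : ℕ) :
    (f.scaleRoots (D : 𝓞 F)).map (algebraMap (𝓞 F) (𝓞 M)) =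
      (f.map (algebraMap (𝓞 F) (𝓞 M))).scaleRoots (D : 𝓞 M) := by
  rw [map_scaleRoots]
  · rw [map_natCast]
  · rw [hm.leadingCoeff, map_one]
    exact one_ne_zero

theorem fF_sc_map {f : (𝓞 F)[X]} (hm : f.Monic) (D : ℕ) :
    fF ((f.scaleRoots (D : 𝓞 F)).map (algebraMap (𝓞 F) (𝓞 M))) =
      ((fF f).map (algebraMap F M)).scaleRoots (D : M) := by
  rw [sc_map hm, fF_scale (hm.map _), fF_map]

theorem rep_L {L : Type} [Field L] [NumberField L] [Algebra F L] {g : ℕ} {f : (𝓞 F)[X]} {θ : L}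
    (hG : IsGen g f θ) (x : L) : ∃ h : F[X], aeval θ h = x := by
  obtain ⟨c, rfl⟩ := hG.gen x
  refine ⟨∑ i, C (c i) * X ^ (i : ℕ), ?_⟩
  rw [map_sum]
  refine Finset.sum_congr rfl fun i _ => ?_
  rw [map_mul, map_pow, aeval_X, aeval_C]

theorem dp_mod8 {S : Finset ℕ} (h : ∀ q ∈ S, q % 8 = 1) : ∀ T : Finset ℕ, T ⊆ S →
    (Dp T) % 8 = 1 := by
  intro T
  unfold Dp
  induction T using Finset.induction_on with
  | empty => intro _; rfl
  | insert a T ha ih =>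
    intro hT
    rw [Finset.prod_insert ha, Nat.mul_mod, ih fun x hx => hT (Finset.mem_insert_of_mem hx),
      h a (hT (Finset.mem_insert_self _ _))]

end gen

section abs

variable {F L M Ω : Type} [Field F] [NumberField F] [Field L] [NumberField L] [Field M]
  [NumberField M] [Field Ω] [NumberField Ω] [Algebra F L] [Algebra F M] [Algebra L Ω] [Algebra M Ω]
  [Algebra F Ω] [IsScalarTower F L Ω] [IsScalarTower F M Ω]
  [IsGalois F M] {g W : ℕ} {f f₁ : (𝓞 F)[X]} {θ : L} {S J : Finset ℕ}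
  {𝔮 : ℕ → Ideal (𝓞 F)} {r P : ℕ → (𝓞 F)[X]}

theorem sel_abs (hg : 1 ≤ g) (hG : IsGen g f θ) (hsq : SqF g f) (hF : GoodF g W f₁)
    (hS : GoodS g W S 𝔮 r P) (hc1 : Cg (sp F W) f f₁) (hcq : ∀ q ∈ S, Cg (sp F q) f (P q))
    (hJS : J ⊆ S)
    (hcore : ∀ h : F[X], aeval θ h ≠ 0 → IsSquare (Algebra.norm F (aeval θ h)) →
      (∀ 𝔓 : HeightOneSpectrum (𝓞 L), (∀ q ∈ J, Ov (𝔮 q) 𝔓 → 𝔓.valuation L θ ≠ 1) →
        Ev 𝔓 (aeval θ h)) →
      (∀ q ∈ J, ∀ 𝔓 : HeightOneSpectrum (𝓞 L), Ov (𝔮 q) 𝔓 → 𝔓.valuation L θ = 1 →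
        U0 𝔓 ((q : L) * θ) (aeval θ h)) →
      (∀ w : HeightOneSpectrum (𝓞 F), (2 : 𝓞 F) ∈ w.asIdeal →
        LocF (w.adicCompletion F) (fF f) h) →
      (∀ σ : F →+* ℝ, LocIm ℝ ((fF f).map σ) (h.map σ)) → IsSquare (aeval θ h))
    (hadm : AdmJ F M f J) {n : ℕ} (hM : Module.finrank F M = 2 ^ n)
    (hΩ : Module.finrank M Ω = 2 * g + 1) (htop : M⟮algebraMap L Ω θ⟯ = ⊤)
    (hmin : minpoly M (algebraMap L Ω θ) = (fF f).map (algebraMap F M))
    {D : ℕ} (hD : D = Dp J) {h : M[X]} (hne : aeval ((D : Ω) * algebraMap L Ω θ) h ≠ 0)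
    (hN : IsSquare (Algebra.norm M (aeval ((D : Ω) * algebraMap L Ω θ) h)))
    (hloc : ∀ w : HeightOneSpectrum (𝓞 M), LocF (w.adicCompletion M)
      (((fF f).map (algebraMap F M)).scaleRoots (D : M)) h)
    (hreal : ∀ ρ : M →+* ℝ, LocIm ℝ ((((fF f).map (algebraMap F M)).scaleRoots (D : M)).map ρ)
      (h.map ρ)) :
    IsSquare (aeval ((D : Ω) * algebraMap L Ω θ) h) := by
  have htop2 : im F M Ω ⊔ im F L Ω = ⊤ := sup_top hM hG.rank hΩ
  have hsplq : ∀ w : HeightOneSpectrum (𝓞 M), (∃ q ∈ J, (q : 𝓞 F) ∈ (w.under (𝓞 F)).asIdeal) →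
      UnrW F w ∧ ResW F w := fun w hw => hadm.spl w (Or.inr hw)
  have hD0 : D ≠ 0 := by
    rw [hD, Dp, Finset.prod_ne_zero_iff]
    exact fun q hq => (hS q (hJS hq)).1.ne_zero
  have hD8 : D % 8 = 1 := by
    rw [hD]
    exact dp_mod8 (fun q hq => (hS q hq).2.2.2.1) J hJS
  have hmf : (f.map (algebraMap (𝓞 F) (𝓞 M))).Monic := hG.mon.map _
  have hdf : (f.map (algebraMap (𝓞 F) (𝓞 M))).natDegree = 2 * g + 1 := by
    rw [hG.mon.natDegree_map, hG.deg]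
  have efs : fF ((f.map (algebraMap (𝓞 F) (𝓞 M))).scaleRoots ((D : ℕ) : 𝓞 M)) =
      ((fF f).map (algebraMap F M)).scaleRoots (D : M) := by
    rw [fF_scale hmf, fF_map]
  have hrepD : aeval (algebraMap L Ω θ) (h.comp (C (D : M) * X)) =
      aeval ((D : Ω) * algebraMap L Ω θ) h := by
    rw [aeval_comp, map_mul, aeval_C, aeval_X, map_natCast]
  -- the conditions
  have hcs := cs_top hg hG hsq hS hcq hJS htop2 hsplq hD hloc hne
  have hc2 : C2 M f (algebraMap L Ω θ) (aeval ((D : Ω) * algebraMap L Ω θ) h) := by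
    refine ⟨fun w hw => ce_of hmin hrepD ?_, fun ρ => ce_of hmin hrepD ?_⟩
    · haveI : Fact (Nat.Prime 2) := ⟨Nat.prime_two⟩
      obtain ⟨δ, hδ⟩ := Pool.Agent.N891.PQ.sq_two D hD8
      obtain ⟨ι, hι, -, -⟩ := Pool.Agent.N498.PQ.cpl M 2 w (by
        change ((2 : ℕ) : 𝓞 M) ∈ w.asIdeal
        exact_mod_cast hw)
      haveI : CharZero (w.adicCompletion M) :=
        charZero_of_injective_algebraMap (algebraMap M (w.adicCompletion M)).injective
      have h1 := map_locF (E := w.adicCompletion M) hmf hdf hD0 (ι δ)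
        (by rw [← map_pow, hδ, map_natCast]) h (by rw [efs]; exact hloc w)
      rw [fF_map] at h1
      exact h1
    · letI : Algebra M ℝ := ρ.toAlgebra
      have h1 := map_locF (E := ℝ) hmf hdf hD0 (Real.sqrt D) (Real.sq_sqrt (Nat.cast_nonneg D)) h
        (by rw [efs]; exact hreal ρ)
      rw [fF_map] at h1
      exact h1
  -- the descent
  have h2F : (2 : F) ≠ 0 := two_ne_zero
  refine Pool.Agent.N301.JM.tow' n F L M Ω h2F hM (by rw [hG.rank]; exact ⟨g, rfl⟩)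
    (by rw [hΩ, hG.rank])
    (fun x => Cs (TM F M J) 𝔮 J (algebraMap L Ω θ)
      (algebraMap L Ω (aeval θ (derivative (fF f)))) x ∧ C2 M f (algebraMap L Ω θ) x)
    (fun x hx => ⟨cs_sq hx, c2_sq htop hmin x⟩)
    (fun x y hx hy hcx hcy => ⟨cs_mul (fun q hq 𝔓 h1 h2 =>
      (q_top hg hG hsq hS hcq hJS htop2 hsplq hq 𝔓 h1 h2).2.2.2.2) hx hy hcx.1 hcy.1,
      c2_mul htop hmin hcx.2 hcy.2⟩)
    (fun σ x hcx => ⟨cs_sig rfl rfl σ hcx.1, c2_sig htop2 htop hmin rfl σ hcx.2⟩)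
    (fun x hx hcx hNx => ?_) _ hne ⟨hcs, hc2⟩ hN
  obtain ⟨h₀, rfl⟩ := rep_L hG x
  exact hcore h₀ hx hNx
    (base_ev hg hG hsq hF hS hc1 hcq hJS htop2 hadm.ram hx hNx hcx.1)
    (base_u0 hS hJS htop2 hsplq hcx.1)
    (fun v hv => base_two hcx.2 (fun w hw => hadm.spl w (Or.inl hw)) v hv)
    (fun ρ => base_real hcx.2 hadm.real ρ)

end abs

section main

variable {F : Type} [Field F] [NumberField F] {L : Type} [Field L] [NumberField L] [Algebra F L]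
  {g W : ℕ} {f f₁ : (𝓞 F)[X]} {θ : L} {S J : Finset ℕ}
  {𝔮 : ℕ → Ideal (𝓞 F)} {r P : ℕ → (𝓞 F)[X]}

/-- The 2-Selmer group over the extension `M`. -/
theorem sel_M (hg : 1 ≤ g) (hirr : Irreducible (fF f)) (hG : IsGen g f θ) (hsq : SqF g f)
    (hF : GoodF g W f₁)
    (hS : GoodS g W S 𝔮 r P) (hc1 : Cg (sp F W) f f₁) (hcq : ∀ q ∈ S, Cg (sp F q) f (P q))
    (hJS : J ⊆ S)
    (hcore : ∀ h : F[X], aeval θ h ≠ 0 → IsSquare (Algebra.norm F (aeval θ h)) →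
      (∀ 𝔓 : HeightOneSpectrum (𝓞 L), (∀ q ∈ J, Ov (𝔮 q) 𝔓 → 𝔓.valuation L θ ≠ 1) →
        Ev 𝔓 (aeval θ h)) →
      (∀ q ∈ J, ∀ 𝔓 : HeightOneSpectrum (𝓞 L), Ov (𝔮 q) 𝔓 → 𝔓.valuation L θ = 1 →
        U0 𝔓 ((q : L) * θ) (aeval θ h)) →
      (∀ w : HeightOneSpectrum (𝓞 F), (2 : 𝓞 F) ∈ w.asIdeal →
        LocF (w.adicCompletion F) (fF f) h) →
      (∀ σ : F →+* ℝ, LocIm ℝ ((fF f).map σ) (h.map σ)) → IsSquare (aeval θ h))
    (M : Type) [Field M] [NumberField M] [Algebra F M] [IsGalois F M]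
    (hadm : AdmJ F M f J) {n : ℕ} (hM : Module.finrank F M = 2 ^ n) :
    SelZero ((f.scaleRoots ((Dp J : ℕ) : 𝓞 F)).map (algebraMap (𝓞 F) (𝓞 M))) ∧
      Irreducible (fF ((f.scaleRoots ((Dp J : ℕ) : 𝓞 F)).map (algebraMap (𝓞 F) (𝓞 M)))) := by
  have hm := hG.mon
  have hd := hG.deg
  have hmF : (fF f).Monic := hm.map _
  have hdF : (fF f).natDegree = 2 * g + 1 := by rw [hm.natDegree_map, hd]
  haveI : FiniteDimensional F M := Module.Finite.of_restrictScalars_finite ℚ F M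
  have hirrM : Irreducible ((fF f).map (algebraMap F M)) :=
    irr_up hM hirr hmF (by rw [hdF]; exact ⟨g, rfl⟩)
  have hmM : ((fF f).map (algebraMap F M)).Monic := hmF.map _
  have hdM : ((fF f).map (algebraMap F M)).natDegree = 2 * g + 1 := by
    rw [hmF.natDegree_map, hdF]
  obtain ⟨D, hDD⟩ : ∃ D : ℕ, D = Dp J := ⟨_, rfl⟩
  have hD0 : D ≠ 0 := by
    rw [hDD, Dp, Finset.prod_ne_zero_iff]
    exact fun q hq => (hS q (hJS hq)).1.ne_zero
  have hDM0 : (D : M) ≠ 0 := Nat.cast_ne_zero.2 hD0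
  rw [← hDD]
  have hirrD : Irreducible (fF ((f.scaleRoots ((D : ℕ) : 𝓞 F)).map
      (algebraMap (𝓞 F) (𝓞 M)))) := by
    rw [fF_sc_map hm]
    exact irr_scale hDM0 hirrM
  refine ⟨?_, hirrD⟩
  obtain ⟨Ω, instF, instA, t, ht, hrk, htop, hfin, hmin⟩ := exists_field hirrM hmM
  rw [hdM] at hrk
  haveI : NumberField Ω := NumberField.of_module_finite M Ω
  letI : Algebra F Ω := ((algebraMap M Ω).comp (algebraMap F M)).toAlgebra
  haveI : IsScalarTower F M Ω := IsScalarTower.of_algebraMap_eq fun x => rfl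
  -- the embedding of `L`
  haveI : Fact (Irreducible (fF f)) := ⟨hirr⟩
  have htf : aeval t (fF f) = 0 := by
    rw [aeval_map_algebraMap] at ht
    exact ht
  haveI : FiniteDimensional F (AdjoinRoot (fF f)) := hmF.finite_adjoinRoot
  haveI : FiniteDimensional F L := Module.finite_of_finrank_pos (by rw [hG.rank]; omega)
  obtain ⟨φ₁, hφ₁⟩ : ∃ φ : AdjoinRoot (fF f) →ₐ[F] L, φ (AdjoinRoot.root (fF f)) = θ := by
    refine ⟨AdjoinRoot.liftAlgHom (fF f) (Algebra.ofId F L) θ ?_, ?_⟩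
    · rw [Algebra.toRingHom_ofId, ← aeval_def]
      exact hG.root
    · rw [AdjoinRoot.liftAlgHom_root]
  obtain ⟨φ₂, hφ₂⟩ : ∃ φ : AdjoinRoot (fF f) →ₐ[F] Ω, φ (AdjoinRoot.root (fF f)) = t := by
    refine ⟨AdjoinRoot.liftAlgHom (fF f) (Algebra.ofId F Ω) t ?_, ?_⟩
    · rw [Algebra.toRingHom_ofId, ← aeval_def]
      exact htf
    · rw [AdjoinRoot.liftAlgHom_root]
  have hrk1 : Module.finrank F (AdjoinRoot (fF f)) = Module.finrank F L := by
    rw [hG.rank, (AdjoinRoot.powerBasis hmF.ne_zero).finrank, AdjoinRoot.powerBasis_dim, hdF]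
  have hsur : Function.Surjective φ₁ :=
    (LinearMap.injective_iff_surjective_of_finrank_eq_finrank (f := φ₁.toLinearMap) hrk1).1
      φ₁.toRingHom.injective
  obtain ⟨e, he⟩ : ∃ e : AdjoinRoot (fF f) ≃ₐ[F] L, ∀ x, e x = φ₁ x :=
    ⟨AlgEquiv.ofBijective φ₁ ⟨φ₁.toRingHom.injective, hsur⟩, fun _ => rfl⟩
  obtain ⟨ψ, hψ⟩ : ∃ ψ : L →ₐ[F] Ω, ψ θ = t := by
    refine ⟨φ₂.comp e.symm.toAlgHom, ?_⟩
    have h1 : e.symm θ = AdjoinRoot.root (fF f) := by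
      rw [AlgEquiv.symm_apply_eq, he, hφ₁]
    change φ₂ (e.symm θ) = t
    rw [h1, hφ₂]
  letI : Algebra L Ω := ψ.toRingHom.toAlgebra
  have hL : ∀ x : L, algebraMap L Ω x = ψ x := fun x => rfl
  haveI : IsScalarTower F L Ω := by
    refine IsScalarTower.of_algebraMap_eq fun x => ?_
    rw [hL, ψ.commutes]
  have hθt : algebraMap L Ω θ = t := by rw [hL, hψ]
  intro h hcop hnorm hloc hlocR
  obtain ⟨F', hF'⟩ : ∃ F' : M[X], F' = fF ((f.scaleRoots ((D : ℕ) : 𝓞 F)).map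
    (algebraMap (𝓞 F) (𝓞 M))) := ⟨_, rfl⟩
  have hF'2 : F' = ((fF f).map (algebraMap F M)).scaleRoots (D : M) := by
    rw [hF', fF_sc_map hm]
  rw [← hF'] at hirrD hcop hnorm hloc hlocR ⊢
  haveI hfact' : Fact (Irreducible F') := ⟨hirrD⟩
  obtain ⟨Θ, hΘ⟩ : ∃ Θ : Ω, Θ = (D : Ω) * t := ⟨_, rfl⟩
  have hroot : aeval Θ F' = 0 := by
    have e1 := scaleRoots_eval₂_mul (p := (fF f).map (algebraMap F M)) (algebraMap M Ω) t (D : M)
    have e2 : eval₂ (algebraMap M Ω) t ((fF f).map (algebraMap F M)) = 0 := by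
      rw [← aeval_def]
      exact ht
    rw [e2, mul_zero, map_natCast] at e1
    rw [hF'2, aeval_def, hΘ]
    exact e1
  have hmF' : F'.Monic := by
    rw [hF'2]
    exact (monic_scaleRoots_iff (D : M)).2 hmM
  have hdF' : F'.natDegree = 2 * g + 1 := by
    rw [hF'2, natDegree_scaleRoots, hdM]
  obtain ⟨φ, hφ⟩ : ∃ φ : AdjoinRoot F' →ₐ[M] Ω,
      φ = AdjoinRoot.liftAlgHom F' (Algebra.ofId M _) Θ hroot := ⟨_, rfl⟩
  have hφmk : ∀ p : M[X], φ (AdjoinRoot.mk F' p) = aeval Θ p := by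
    intro p
    have h1 := AdjoinRoot.liftAlgHom_mk F' (Algebra.ofId M Ω) Θ hroot p
    rw [Algebra.toRingHom_ofId, ← Polynomial.aeval_def] at h1
    rw [hφ]
    exact h1
  have hφinj : Function.Injective φ := φ.toRingHom.injective
  haveI : FiniteDimensional M (AdjoinRoot F') := hmF'.finite_adjoinRoot
  have hrk' : Module.finrank M (AdjoinRoot F') = Module.finrank M Ω := by
    rw [hrk, (AdjoinRoot.powerBasis hmF'.ne_zero).finrank, AdjoinRoot.powerBasis_dim, hdF']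
  have hφsurj : Function.Surjective φ :=
    (LinearMap.injective_iff_surjective_of_finrank_eq_finrank (f := φ.toLinearMap) hrk').1 hφinj
  obtain ⟨e', he'⟩ : ∃ e' : AdjoinRoot F' ≃ₐ[M] Ω, ∀ x, e' x = φ x :=
    ⟨AlgEquiv.ofBijective φ ⟨hφinj, hφsurj⟩, fun _ => rfl⟩
  have hemk : ∀ p : M[X], e' (AdjoinRoot.mk F' p) = aeval Θ p := fun p => (he' _).trans (hφmk p)
  have hne : aeval Θ h ≠ 0 := by
    intro h0
    obtain ⟨u, v, huv⟩ := hcop
    have := congrArg (aeval Θ) huv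
    rw [map_add, map_mul, map_mul, hroot, h0, mul_zero, mul_zero, add_zero, map_one] at this
    exact zero_ne_one this
  have hnorm' : IsSquare (Algebra.norm M (aeval Θ h)) := by
    rw [← hemk, Algebra.norm_eq_of_algEquiv]
    exact hnorm
  have hΘ' : Θ = (D : Ω) * algebraMap L Ω θ := by rw [hΘ, hθt]
  rw [hΘ'] at hne hnorm'
  rw [hF'2] at hloc hlocR
  obtain ⟨y, hy⟩ := sel_abs hg hG hsq hF hS hc1 hcq hJS hcore hadm hM hrk (by rw [hθt]; exact htop)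
    (by rw [hθt]; exact hmin) hDD hne hnorm' hloc hlocR
  rw [← hΘ'] at hy
  obtain ⟨z, rfl⟩ := hφsurj y
  obtain ⟨s, rfl⟩ := AdjoinRoot.mk_surjective z
  refine ⟨s, ?_⟩
  rw [← AdjoinRoot.mk_eq_zero]
  apply hφinj
  rw [map_zero, hφmk, map_sub, map_pow, sub_eq_zero]
  rw [hφmk] at hy
  rw [pow_two]
  exact hy

end main

end Pool.Agent.H30H
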