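import Pool.Agent.H30H.Defs
import Pool.Agent.H30H.Sel
import Pool.Agent.N874.TW.Fld

/-!
# Admissible extensions
-/

set_option autoImplicit false
set_option linter.all false

open Polynomial IsDedekindDomain NumberField Module
open scoped Classical IntermediateField

namespace Pool.Agent.H30H

open Pool.Agent.N783.PF

variable {F M : Type} [Field F] [NumberField F] [Field M] [NumberField M] [Algebra F M]

theorem map_le_iff (v : HeightOneSpectrum (𝓞 F)) (w : HeightOneSpectrum (𝓞 M)) :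
    v.asIdeal.map (algebraMap (𝓞 F) (𝓞 M)) ≤ w.asIdeal ↔ w.under (𝓞 F) = v := by
  rw [Ideal.map_le_iff_le_comap]
  constructor
  · intro h
    symm
    ext1
    exact v.isMaximal.eq_of_le (w.under (𝓞 F)).isPrime.ne_top h
  · rintro rfl
    exact le_rfl

theorem spl_of {v : HeightOneSpectrum (𝓞 F)} (h : SplitsCompletely M v)
    {w : HeightOneSpectrum (𝓞 M)} (hw : w.under (𝓞 F) = v) : UnrW F w ∧ ResW F w := by
  obtain ⟨h1, h2⟩ := h w ((map_le_iff v w).2 hw)
  rw [← hw] at h1 h2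
  exact ⟨(unrW_iff w).2 h1, resW_of w h2⟩

theorem spl_iff {v : HeightOneSpectrum (𝓞 F)} : SplitsCompletely M v ↔
    ∀ w : HeightOneSpectrum (𝓞 M), w.under (𝓞 F) = v → UnrW F w ∧ ResW F w := by
  refine ⟨fun h w hw => spl_of h hw, fun h w hw => ?_⟩
  rw [map_le_iff] at hw
  obtain ⟨h1, h2⟩ := h w hw
  subst hw
  exact ⟨(unrW_iff w).1 h1, card_of_resW w h2⟩

theorem ram_iff {v : HeightOneSpectrum (𝓞 F)} : Ramified M v ↔
    ∃ w : HeightOneSpectrum (𝓞 M), w.under (𝓞 F) = v ∧ ¬ UnrW F w := by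
  constructor
  · rintro ⟨w, hw⟩
    have h1 : w.under (𝓞 F) = v := (map_le_iff v w).1 (hw.trans (Ideal.pow_le_self two_ne_zero))
    refine ⟨w, h1, ?_⟩
    rw [unrW_iff, h1, not_not]
    exact hw
  · rintro ⟨w, hw, hu⟩
    rw [unrW_iff, hw, not_not] at hu
    exact ⟨w, hu⟩

theorem scale_mod {f : (𝓞 F)[X]} (hm : f.Monic) (v : HeightOneSpectrum (𝓞 F)) (D : ℕ) :
    (f.scaleRoots (D : 𝓞 F)).map (Ideal.Quotient.mk v.asIdeal) =
      (rd v.asIdeal f).scaleRoots (Ideal.Quotient.mk v.asIdeal (D : 𝓞 F)) := by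
  haveI := v.isPrime
  haveI : Nontrivial (𝓞 F ⧸ v.asIdeal) := Ideal.Quotient.nontrivial_iff.2 v.isPrime.ne_top
  rw [map_scaleRoots]
  rw [hm.leadingCoeff, map_one]
  exact one_ne_zero

theorem scale_zero {R : Type} [CommRing R] [Nontrivial R] {p : R[X]} (hp : p.Monic) :
    p.scaleRoots 0 = X ^ p.natDegree := by
  ext i
  rw [coeff_scaleRoots, coeff_X_pow]
  rcases lt_trichotomy i p.natDegree with h | h | h
  · rw [if_neg h.ne, zero_pow (by omega), mul_zero]
  · rw [if_pos h, h, Nat.sub_self, pow_zero, mul_one]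
    exact hp
  · rw [if_neg h.ne', coeff_eq_zero_of_natDegree_lt h, zero_mul]

theorem adm_of {f : (𝓞 F)[X]} (hm : f.Monic) {J : Finset ℕ}
    (hJ2 : ∀ q ∈ J, q.Prime ∧ q ≠ 2)
    (h : Admissible M (f.scaleRoots ((Dp J : ℕ) : 𝓞 F))) : AdmJ F M f J where
  spl w hw := by
    by_cases h2 : (2 : 𝓞 F) ∈ (w.under (𝓞 F)).asIdeal
    · exact spl_of (h.two _ h2) rfl
    · rcases hw with hw | ⟨q, hq, hqw⟩
      · exact absurd hw h2
      · refine spl_of (h.split _ h2 ?_) rfl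
        haveI := (w.under (𝓞 F)).isPrime
        haveI : Nontrivial (𝓞 F ⧸ (w.under (𝓞 F)).asIdeal) :=
          Ideal.Quotient.nontrivial_iff.2 (w.under (𝓞 F)).isPrime.ne_top
        have hD : Ideal.Quotient.mk (w.under (𝓞 F)).asIdeal ((Dp J : ℕ) : 𝓞 F) = 0 := by
          rw [Ideal.Quotient.eq_zero_iff_mem, Dp, Nat.cast_prod]
          exact (Ideal.IsPrime.prod_mem_iff).2 ⟨q, hq, hqw⟩
        rw [scale_mod hm, hD, scale_zero (hm.map _), natDegree_scaleRoots]
        congr 1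
        exact hm.natDegree_map _
  ram w hw := by
    have h1 := h.ram _ (ram_iff.2 ⟨w, rfl, hw⟩)
    haveI := (w.under (𝓞 F)).isMaximal
    letI : Field (𝓞 F ⧸ (w.under (𝓞 F)).asIdeal) := Ideal.Quotient.field _
    rw [scale_mod hm] at h1
    exact Pool.Agent.N874.TW.irr_scale (hm.map _).ne_zero h1
  real ρ := by
    obtain ⟨ρ', hρ⟩ := h.real ρ
    exact ⟨ρ', RingHom.ext hρ⟩

end Pool.Agent.H30H
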