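import Pool.Agent.H30EV.Comp
import Pool.Agent.N301.JM.TOW
import Pool.Agent.N874.TW.Gen
import Pool.Agent.N783.PF.Lat

/-!
# Unramified and completely split primes in the compositum with a Galois extension of a number field
-/

set_option autoImplicit false
set_option linter.all false

open Polynomial IsDedekindDomain NumberField Module
open scoped Classical IntermediateField Pointwise

namespace Pool.Agent.H30H

open Pool.Agent.N692.PMTOW (im adj_top normal_of_top)
open Pool.Agent.H30EV (val_of_inertia dens_of_stab)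

section base

variable {F M : Type} [Field F] [NumberField F] [Field M] [NumberField M] [Algebra F M]

/-- The valuations of `F` and `M` at `w` agree. -/
def UnrW (F : Type) [Field F] [NumberField F] {M : Type} [Field M] [NumberField M] [Algebra F M]
    (w : HeightOneSpectrum (𝓞 M)) : Prop :=
  ∀ x : F, w.valuation M (algebraMap F M x) = (w.under (𝓞 F)).valuation F x

/-- The residue fields of `F` and `M` at `w` agree. -/
def ResW (F : Type) [Field F] [NumberField F] {M : Type} [Field M] [NumberField M] [Algebra F M]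
    (w : HeightOneSpectrum (𝓞 M)) : Prop :=
  ∀ z : 𝓞 M, ∃ y : 𝓞 F, z - algebraMap (𝓞 F) (𝓞 M) y ∈ w.asIdeal

theorem mem_under (w : HeightOneSpectrum (𝓞 M)) (a : 𝓞 F) :
    a ∈ (w.under (𝓞 F)).asIdeal ↔ algebraMap (𝓞 F) (𝓞 M) a ∈ w.asIdeal := by
  rw [HeightOneSpectrum.under_asIdeal, Ideal.under_def, Ideal.mem_comap]

theorem ram_idx (w : HeightOneSpectrum (𝓞 M)) (x : F) : ∃ e : ℕ, 
    w.valuation M (algebraMap F M x) = (w.under (𝓞 F)).valuation F x ^ e := by
  haveI : w.asIdeal.LiesOver (w.under (𝓞 F)).asIdeal := ⟨rfl⟩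
  exact ⟨_, (HeightOneSpectrum.valuation_liesOver (K := F) M (w.under (𝓞 F)) w x).symm⟩

theorem unrW_iff (w : HeightOneSpectrum (𝓞 M)) :
    UnrW F w ↔ ¬ (w.under (𝓞 F)).asIdeal.map (algebraMap (𝓞 F) (𝓞 M)) ≤ w.asIdeal ^ 2 := by
  haveI : w.asIdeal.LiesOver (w.under (𝓞 F)).asIdeal := ⟨rfl⟩
  obtain ⟨e, he⟩ : ∃ e : ℕ, ∀ x : F, w.valuation M (algebraMap F M x) =
      (w.under (𝓞 F)).valuation F x ^ e :=
    ⟨_, fun x => (HeightOneSpectrum.valuation_liesOver (K := F) M (w.under (𝓞 F)) w x).symm⟩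
  constructor
  · intro hu hle
    obtain ⟨π, hπ⟩ := (w.under (𝓞 F)).intValuation_exists_uniformizer
    have h1 : (w.under (𝓞 F)).valuation F (algebraMap (𝓞 F) F π) = WithZero.exp (-1 : ℤ) := by
      rw [HeightOneSpectrum.valuation_of_algebraMap, hπ]
    have h2 := hu (algebraMap (𝓞 F) F π)
    rw [h1] at h2
    have hπm : π ∈ (w.under (𝓞 F)).asIdeal := by
      rw [← HeightOneSpectrum.valuation_lt_one_iff_mem (K := F)]
      change (w.under (𝓞 F)).valuation F (algebraMap (𝓞 F) F π) < 1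
      rw [h1, ← WithZero.exp_zero, WithZero.exp_lt_exp]
      norm_num
    have h3 : algebraMap (𝓞 F) (𝓞 M) π ∈ w.asIdeal ^ 2 := hle (Ideal.mem_map_of_mem _ hπm)
    have h4 : w.valuation M (algebraMap (𝓞 M) M (algebraMap (𝓞 F) (𝓞 M) π)) ≤
        WithZero.exp (-((2 : ℕ) : ℤ)) := by
      rw [HeightOneSpectrum.valuation_of_algebraMap]
      exact (w.intValuation_le_pow_iff_mem _ _).2 h3
    have e : algebraMap (𝓞 M) M (algebraMap (𝓞 F) (𝓞 M) π) = algebraMap F M (algebraMap (𝓞 F) F π) :=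
      rfl
    rw [e, h2, WithZero.exp_le_exp] at h4
    norm_num at h4
  · intro hn
    rw [Ideal.map_le_iff_le_comap, SetLike.not_le_iff_exists] at hn
    obtain ⟨a, ha, ha2⟩ := hn
    rw [Ideal.mem_comap] at ha2
    have e : algebraMap (𝓞 M) M (algebraMap (𝓞 F) (𝓞 M) a) = algebraMap F M (algebraMap (𝓞 F) F a) :=
      rfl
    have ha0 : algebraMap F M (algebraMap (𝓞 F) F a) ≠ 0 := by
      intro h0
      apply ha2
      have h1 : algebraMap (𝓞 F) (𝓞 M) a = 0 := by
        apply IsFractionRing.injective (𝓞 M) M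
        rw [e, h0, map_zero]
      rw [h1]
      exact Ideal.zero_mem _
    have h1 : w.valuation M (algebraMap F M (algebraMap (𝓞 F) F a)) ≤
        WithZero.exp (-((1 : ℕ) : ℤ)) := by
      rw [← e, HeightOneSpectrum.valuation_of_algebraMap]
      refine (w.intValuation_le_pow_iff_mem _ _).2 ?_
      rw [pow_one]
      exact (mem_under w a).1 ha
    have h2 : ¬ w.valuation M (algebraMap F M (algebraMap (𝓞 F) F a)) ≤
        WithZero.exp (-((2 : ℕ) : ℤ)) := by
      rw [← e, HeightOneSpectrum.valuation_of_algebraMap]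
      exact fun h => ha2 ((w.intValuation_le_pow_iff_mem _ _).1 h)
    have h3 : w.valuation M (algebraMap F M (algebraMap (𝓞 F) F a)) = WithZero.exp (-1 : ℤ) := by
      have h0 : w.valuation M (algebraMap F M (algebraMap (𝓞 F) F a)) ≠ 0 :=
        (Valuation.ne_zero_iff _).2 ha0
      rw [← WithZero.exp_log h0] at h1 h2 ⊢
      rw [WithZero.exp_le_exp] at h1 h2
      congr 1
      omega
    rw [he] at h3
    have h4 := Pool.Agent.N874.TW.exp_pow h3
    intro x
    rw [he, h4, pow_one]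

theorem resW_of (w : HeightOneSpectrum (𝓞 M))
    (h : Nat.card (𝓞 M ⧸ w.asIdeal) = Nat.card (𝓞 F ⧸ (w.under (𝓞 F)).asIdeal)) : ResW F w := by
  have hwp : w.asIdeal.IsPrime := w.isPrime
  haveI : w.asIdeal.LiesOver (w.under (𝓞 F)).asIdeal := ⟨rfl⟩
  have hvp : (w.under (𝓞 F)).asIdeal.IsPrime := (w.under (𝓞 F)).isPrime
  have hvm : (w.under (𝓞 F)).asIdeal.IsMaximal := (w.under (𝓞 F)).isMaximal
  have hfin : Finite (𝓞 F ⧸ (w.under (𝓞 F)).asIdeal) :=
    Ring.HasFiniteQuotients.finiteQuotient (w.under (𝓞 F)).ne_bot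
  have hfin2 : Finite (𝓞 M ⧸ w.asIdeal) := Ring.HasFiniteQuotients.finiteQuotient w.ne_bot
  have hsurj : Function.Surjective
      (algebraMap (𝓞 F ⧸ (w.under (𝓞 F)).asIdeal) (𝓞 M ⧸ w.asIdeal)) := by
    have : Fintype (𝓞 F ⧸ (w.under (𝓞 F)).asIdeal) := Fintype.ofFinite _
    have : Fintype (𝓞 M ⧸ w.asIdeal) := Fintype.ofFinite _
    let _ : Field (𝓞 F ⧸ (w.under (𝓞 F)).asIdeal) := Ideal.Quotient.field _
    have hinj : Function.Injective
        (algebraMap (𝓞 F ⧸ (w.under (𝓞 F)).asIdeal) (𝓞 M ⧸ w.asIdeal)) := RingHom.injective _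
    refine ((Fintype.bijective_iff_injective_and_card _).2 ⟨hinj, ?_⟩).2
    rw [Nat.card_eq_fintype_card, Nat.card_eq_fintype_card] at h
    exact h.symm
  intro z
  obtain ⟨y, hy⟩ := hsurj (Ideal.Quotient.mk w.asIdeal z)
  obtain ⟨y₀, rfl⟩ := Ideal.Quotient.mk_surjective y
  refine ⟨y₀, ?_⟩
  rw [← Ideal.Quotient.eq]
  exact hy.symm

theorem card_of_resW (w : HeightOneSpectrum (𝓞 M)) (h : ResW F w) :
    Nat.card (𝓞 M ⧸ w.asIdeal) = Nat.card (𝓞 F ⧸ (w.under (𝓞 F)).asIdeal) := by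
  haveI : w.asIdeal.LiesOver (w.under (𝓞 F)).asIdeal := ⟨rfl⟩
  have hvm : (w.under (𝓞 F)).asIdeal.IsMaximal := (w.under (𝓞 F)).isMaximal
  have hwm : w.asIdeal.IsMaximal := w.isMaximal
  haveI : Nontrivial (𝓞 M ⧸ w.asIdeal) := Ideal.Quotient.nontrivial_iff.2 hwm.ne_top
  let _ : Field (𝓞 F ⧸ (w.under (𝓞 F)).asIdeal) := Ideal.Quotient.field _
  have hinj : Function.Injective
      (algebraMap (𝓞 F ⧸ (w.under (𝓞 F)).asIdeal) (𝓞 M ⧸ w.asIdeal)) := RingHom.injective _
  have hsurj : Function.Surjective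
      (algebraMap (𝓞 F ⧸ (w.under (𝓞 F)).asIdeal) (𝓞 M ⧸ w.asIdeal)) := by
    intro z
    obtain ⟨z₀, rfl⟩ := Ideal.Quotient.mk_surjective z
    obtain ⟨y, hy⟩ := h z₀
    refine ⟨Ideal.Quotient.mk _ y, ?_⟩
    change Ideal.Quotient.mk w.asIdeal (algebraMap (𝓞 F) (𝓞 M) y) = _
    exact (Ideal.Quotient.eq.2 hy).symm
  exact (Nat.card_congr (Equiv.ofBijective _ ⟨hinj, hsurj⟩)).symm

/-- density of `F` -/
theorem dens_of_res (w : HeightOneSpectrum (𝓞 M)) (hu : UnrW F w) (hr : ResW F w) (s : M)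
    (hs : s ≠ 0) : ∃ s₀ : F, w.valuation M (s - algebraMap F M s₀) < w.valuation M s := by
  obtain ⟨c, hc⟩ := (w.under (𝓞 F)).valuation_surjective (K := F) (w.valuation M s)
  have hc0 : c ≠ 0 := by
    rintro rfl
    rw [map_zero] at hc
    exact ((Valuation.ne_zero_iff _).mpr hs) hc.symm
  have hcL : algebraMap F M c ≠ 0 := by simpa using hc0
  have hvc : w.valuation M (algebraMap F M c) = w.valuation M s := by rw [hu, hc]
  have hu1 : w.valuation M (s / algebraMap F M c) ≤ 1 := by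
    rw [map_div₀, hvc, div_self]
    exact (Valuation.ne_zero_iff _).mpr hs
  obtain ⟨z, hz⟩ := HeightOneSpectrum.exists_valuation_sub_lt_of_integer w hu1 1
  obtain ⟨z₀, hz₀⟩ := hr z
  refine ⟨c * z₀, ?_⟩
  have e : s - algebraMap F M (c * z₀) = algebraMap F M c * ((s / algebraMap F M c -
      algebraMap (𝓞 M) M z) + algebraMap (𝓞 M) M (z - algebraMap (𝓞 F) (𝓞 M) z₀)) := by
    have e2 : algebraMap (𝓞 M) M (algebraMap (𝓞 F) (𝓞 M) z₀) = algebraMap F M z₀ := rfl
    rw [map_sub, e2, map_mul]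
    field_simp
    ring
  rw [e, map_mul, hvc]
  have hlt : w.valuation M ((s / algebraMap F M c - algebraMap (𝓞 M) M z) +
      algebraMap (𝓞 M) M (z - algebraMap (𝓞 F) (𝓞 M) z₀)) < 1 := by
    refine lt_of_le_of_lt (Valuation.map_add _ _ _) (max_lt ?_ ?_)
    · rw [Valuation.map_sub_swap]
      simpa using hz
    · exact (w.valuation_lt_one_iff_mem _).2 hz₀
  have hpos : 0 < w.valuation M s := by
    rw [zero_lt_iff]
    exact (Valuation.ne_zero_iff _).2 hs
  calc w.valuation M s * _ < w.valuation M s * 1 := mul_lt_mul_of_pos_left hlt hpos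
    _ = w.valuation M s := mul_one _

variable [IsGalois F M]

/-- The inertia group at an unramified prime is trivial. -/
theorem inertia_one (w : HeightOneSpectrum (𝓞 M)) (hu : UnrW F w) :
    Nat.card (w.asIdeal.inertia Gal(M/F)) = 1 := by
  have hPp : w.asIdeal.IsPrime := w.isPrime
  obtain ⟨I, hIdef⟩ : ∃ I : Ideal (𝓞 F), I = w.asIdeal.under (𝓞 F) := ⟨_, rfl⟩
  have hIprime : I.IsPrime := by rw [hIdef]; infer_instance
  have hover : w.asIdeal.LiesOver I := ⟨hIdef⟩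
  have hI0 : I ≠ ⊥ := by rw [hIdef]; exact Ideal.under_ne_bot (𝓞 F) w.ne_bot
  have hImax : I.IsMaximal := hIprime.isMaximal hI0
  have hfin : Finite (𝓞 F ⧸ I) := Ring.HasFiniteQuotients.finiteQuotient hI0
  have hover' : w.asIdeal.LiesOver (w.under (𝓞 F)).asIdeal := ⟨rfl⟩
  have hcard : Nat.card (w.asIdeal.inertia Gal(M/F)) = Ideal.ramificationIdxIn I (𝓞 M) :=
    Ideal.card_inertia_eq_ramificationIdxIn I w.asIdeal
  have h1 : Ideal.ramificationIdxIn I (𝓞 M) = w.asIdeal.ramificationIdx (𝓞 F) :=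
    Ideal.ramificationIdxIn_eq_ramificationIdx I w.asIdeal Gal(M/F)
  have h2 : I.ramificationIdx' w.asIdeal = w.asIdeal.ramificationIdx (𝓞 F) :=
    Ideal.ramificationIdx'_eq_ramificationIdx I w.asIdeal hI0
  rw [hcard, h1, ← h2]
  obtain ⟨π, hπ⟩ := (w.under (𝓞 F)).valuation_exists_uniformizer F
  have h5 := HeightOneSpectrum.valuation_liesOver (K := F) M (w.under (𝓞 F)) w π
  rw [hu, hπ] at h5
  have e : (w.under (𝓞 F)).asIdeal = I := hIdef.symm
  rw [e] at h5
  exact Pool.Agent.N874.TW.exp_pow h5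

theorem inertia_triv (w : HeightOneSpectrum (𝓞 M)) (hu : UnrW F w)
    (σ : Gal(M/F)) (hσ : ∀ y : 𝓞 M, σ • y - y ∈ w.asIdeal) : σ = 1 := by
  have h1 := inertia_one w hu
  rw [Nat.card_eq_one_iff_unique] at h1
  have h2 := h1.1.elim (⟨σ, fun y => hσ y⟩ : w.asIdeal.inertia Gal(M/F)) 1
  exact congrArg Subtype.val h2

theorem stab_triv (w : HeightOneSpectrum (𝓞 M)) (hu : UnrW F w) (hr : ResW F w)
    (σ : Gal(M/F)) (hσ : ∀ y ∈ w.asIdeal, σ • y ∈ w.asIdeal) : σ = 1 := by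
  have hPp : w.asIdeal.IsPrime := w.isPrime
  obtain ⟨I, hIdef⟩ : ∃ I : Ideal (𝓞 F), I = w.asIdeal.under (𝓞 F) := ⟨_, rfl⟩
  have hIprime : I.IsPrime := by rw [hIdef]; infer_instance
  have hover : w.asIdeal.LiesOver I := ⟨hIdef⟩
  have hI0 : I ≠ ⊥ := by rw [hIdef]; exact Ideal.under_ne_bot (𝓞 F) w.ne_bot
  have hImax : I.IsMaximal := hIprime.isMaximal hI0
  have hfin : Finite (𝓞 F ⧸ I) := Ring.HasFiniteQuotients.finiteQuotient hI0
  have hcard : Nat.card (MulAction.stabilizer Gal(M/F) w.asIdeal) =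
      Nat.card (w.asIdeal.inertia Gal(M/F)) * w.asIdeal.inertiaDeg (𝓞 F) :=
    Ideal.card_stabilizer_eq_card_inertia_mul_finrank I w.asIdeal
  have hN := Ideal.absNorm_eq_pow_inertiaDeg'_of_liesOver w.asIdeal I hIprime hI0
  have hN' : Ideal.absNorm w.asIdeal = Ideal.absNorm I := by
    have h1 := card_of_resW w hr
    have e : (w.under (𝓞 F)).asIdeal = I := hIdef.symm
    rw [e] at h1
    exact h1
  have h1P : 1 < Ideal.absNorm I := by
    rw [Nat.one_lt_iff_ne_zero_and_ne_one]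
    refine ⟨fun h => hI0 (Ideal.absNorm_eq_zero_iff.1 h), fun h => hIprime.ne_top
      (Ideal.absNorm_eq_one_iff.1 h)⟩
  have hf : I.inertiaDeg' w.asIdeal = 1 := by
    rw [hN'] at hN
    have : Ideal.absNorm I ^ 1 = Ideal.absNorm I ^ I.inertiaDeg' w.asIdeal := by
      rw [pow_one]
      exact hN
    exact (Nat.pow_right_injective h1P this).symm
  rw [Ideal.inertiaDeg'_eq_inertiaDeg] at hf
  rw [inertia_one w hu, hf, mul_one] at hcard
  have h2 : σ • w.asIdeal = w.asIdeal := by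
    have h3 : w.asIdeal ≤ σ⁻¹ • w.asIdeal := by
      intro y hy
      rw [Ideal.mem_inv_pointwise_smul_iff]
      exact hσ y hy
    have h4 : σ⁻¹ • w.asIdeal ≠ ⊤ := by
      intro h5
      apply w.isPrime.ne_top
      rw [Ideal.eq_top_iff_one] at h5 ⊢
      rw [Ideal.mem_inv_pointwise_smul_iff, smul_one] at h5
      exact h5
    have h6 := w.isMaximal.eq_of_le h4 h3
    calc σ • w.asIdeal = σ • σ⁻¹ • w.asIdeal := by rw [← h6]
      _ = w.asIdeal := smul_inv_smul _ _
  rw [Nat.card_eq_one_iff_unique] at hcard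
  have h4 := hcard.1.elim (⟨σ, h2⟩ : MulAction.stabilizer Gal(M/F) w.asIdeal) 1
  exact congrArg Subtype.val h4

end base

end Pool.Agent.H30H
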