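import Pool.Agent.H30H.Cnd
import Pool.Agent.N783.PF.Final

/-!
# The base of the descent: the conditions at the primes which are not above two
-/

set_option autoImplicit false
set_option linter.all false

open Polynomial IsDedekindDomain NumberField Module
open scoped Classical IntermediateField

namespace Pool.Agent.H30H

open Pool.Agent.N692.PMTOW (im)
open Pool.Agent.N783.PF
open Pool.Agent.N874.PP (Ev Sq1 U0)
open Pool.Agent.N922.PQ (ev_sq ev_mul ev_down sq_down)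
open Pool.Agent.H30EV (exists_above)
open Pool.Agent.N78.PF (rd_eq sp_le val_theta val_der)

variable {F L M Ω : Type} [Field F] [NumberField F] [Field L] [NumberField L] [Field M]
  [NumberField M] [Field Ω] [NumberField Ω] [Algebra F L] [Algebra F M] [Algebra L Ω] [Algebra M Ω]
  [Algebra F Ω] [IsScalarTower F L Ω] [IsScalarTower F M Ω]

omit [Field M] [NumberField M] [Algebra F M] [Algebra M Ω] [IsScalarTower F M Ω] in
theorem under_tower (𝔓 : HeightOneSpectrum (𝓞 Ω)) :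
    (𝔓.under (𝓞 L)).under (𝓞 F) = 𝔓.under (𝓞 F) := by
  ext x
  rw [mem_under, mem_under, mem_under, algO]

/-- The excluded primes: the primes over two, the primes dividing an element of `J` and the primes which are
ramified in `M`. -/
def TM (F M : Type) [Field F] [NumberField F] [Field M] [NumberField M] [Algebra F M]
    (J : Finset ℕ) : Set (HeightOneSpectrum (𝓞 F)) :=
  {v | (2 : 𝓞 F) ∈ v.asIdeal ∨ (∃ q ∈ J, (q : 𝓞 F) ∈ v.asIdeal) ∨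
    ∃ w : HeightOneSpectrum (𝓞 M), w.under (𝓞 F) = v ∧ ¬ UnrW F w}

variable [IsGalois F M] {g W : ℕ} {f f₁ : (𝓞 F)[X]} {θ : L} {S J : Finset ℕ}
  {𝔮 : ℕ → Ideal (𝓞 F)} {r P : ℕ → (𝓞 F)[X]}

theorem cgQ (hS : GoodS g W S 𝔮 r P) (hcq : ∀ q ∈ S, Cg (sp F q) f (P q)) :
    ∀ q ∈ S, Cg (𝔮 q) f (X * r q) := by
  intro q hq j
  obtain ⟨-, -, -, -, -, -, a2, -, -, -, -, -, -, a3, -⟩ := hS q hq
  have b1 := sp_le (F := F) a2 (hcq q hq j)
  have b2 := a3 j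
  have := Ideal.add_mem _ b1 b2
  simpa using this

theorem q_ne (hS : GoodS g W S 𝔮 r P) : ∀ q ∈ S, 𝔮 q ≠ ⊥ := by
  intro q hq h0
  obtain ⟨a1, -, -, -, -, -, a2, -⟩ := hS q hq
  rw [h0, Ideal.mem_bot] at a2
  exact a1.ne_zero (by exact_mod_cast a2)

theorem q_pr (hS : GoodS g W S 𝔮 r P) : ∀ q ∈ S, (𝔮 q).IsPrime := by
  intro q hq
  obtain ⟨-, -, -, -, -, a1, -⟩ := hS q hq
  exact a1

/-- the prime `𝔮 q` -/
theorem under_q {K : Type} [Field K] [NumberField K] [Algebra F K] (hS : GoodS g W S 𝔮 r P)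
    {q : ℕ} (hq : q ∈ S) {𝔓 : HeightOneSpectrum (𝓞 K)} (h : Ov (𝔮 q) 𝔓) :
    𝔮 q = (𝔓.under (𝓞 F)).asIdeal := by
  have hmax : (𝔮 q).IsMaximal := (q_pr hS q hq).isMaximal (q_ne hS q hq)
  exact hmax.eq_of_le (𝔓.under (𝓞 F)).isPrime.ne_top (ov_iff.1 h)

theorem base_ev (hg : 1 ≤ g) (hG : IsGen g f θ) (hsq : SqF g f) (hF : GoodF g W f₁)
    (hS : GoodS g W S 𝔮 r P) (hc1 : Cg (sp F W) f f₁) (hcq : ∀ q ∈ S, Cg (sp F q) f (P q))
    (hJS : J ⊆ S) (htop : im F M Ω ⊔ im F L Ω = ⊤)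
    (hram : ∀ w : HeightOneSpectrum (𝓞 M), ¬ UnrW F w →
      Irreducible (rd (w.under (𝓞 F)).asIdeal f))
    {x : L} (hx : x ≠ 0) (hN : IsSquare (Algebra.norm F x))
    (hC : Cs (TM F M J) 𝔮 J (algebraMap L Ω θ)
      (algebraMap L Ω (aeval θ (derivative (fF f)))) (algebraMap L Ω x)) :
    ∀ 𝔓 : HeightOneSpectrum (𝓞 L), (∀ q ∈ J, Ov (𝔮 q) 𝔓 → 𝔓.valuation L θ ≠ 1) →
      Ev 𝔓 x := by
  have hcQ := cgQ hS hcq
  have pin := Pool.Agent.N426.PF.pin int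
  have par := Pool.Agent.N426.PF.par int
  have parq := Pool.Agent.N426.PF.parq int exq
  have hram' := Pool.Agent.N459.PF.ram int
  have key : ∀ 𝔓 : HeightOneSpectrum (𝓞 L), 𝔓.under (𝓞 F) ∉ TM F M J →
      𝔓.valuation L (aeval θ (derivative (fF f))) = 1 → Ev 𝔓 x := by
    intro 𝔓 h1 h2
    obtain ⟨𝔓', h3⟩ := exists_above (Ω := Ω) 𝔓
    have hu : UnrW L 𝔓' := by
      refine unr_top htop 𝔓' ?_
      by_contra hc
      apply h1
      right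
      right
      refine ⟨𝔓'.under (𝓞 M), ?_, hc⟩
      rw [under_under (L := L), h3]
    have hv : ∀ y : L, 𝔓'.valuation Ω (algebraMap L Ω y) = 𝔓.valuation L y := by
      intro y
      rw [hu y, h3]
    rw [← ev_down hv]
    refine hC.ev 𝔓' ?_ ?_
    · rw [← under_tower (L := L), h3]
      exact h1
    · rw [hv]
      exact h2
  intro 𝔓 h𝔓
  obtain ⟨v, hv⟩ : ∃ v : HeightOneSpectrum (𝓞 F), v = 𝔓.under (𝓞 F) := ⟨_, rfl⟩
  have w1 : Ov v.asIdeal 𝔓 := by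
    rw [hv]
    exact ov_iff.2 le_rfl
  by_cases c2 : (2 : 𝓞 F) ∈ v.asIdeal
  · have hW : (W : 𝓞 F) ∈ v.asIdeal := by
      obtain ⟨k, hk⟩ := hF.two
      rw [hk]
      push_cast
      exact Ideal.mul_mem_right _ _ c2
    have e1 := rd_eq (sp_le hW) hc1
    exact pin g F L f θ hG hsq v.asIdeal v.isPrime v.ne_bot
      (by rw [e1]; exact hF.irr _ v.isPrime c2) _ hx hN 𝔓 w1
  by_cases cq : ∃ q ∈ J, (q : 𝓞 F) ∈ v.asIdeal
  · obtain ⟨q, hq, hqw⟩ := cq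
    have hqS := hJS hq
    by_cases cw : v.asIdeal = 𝔮 q
    · have o1 : Ov (𝔮 q) 𝔓 := by
        rw [← cw]
        exact w1
      have v1 : 𝔓.valuation L θ < 1 := lt_of_le_of_ne (val_theta hG 𝔓) (h𝔓 q hq o1)
      exact parq g W F L f θ S 𝔮 r P hg hG hsq hS q hqS (hcQ q hqS) _ hx hN 𝔓 o1 v1
    · have e1 := rd_eq (sp_le hqw) (hcq q hqS)
      obtain ⟨-, -, -, -, -, -, -, -, -, -, -, -, -, -, a1⟩ := hS q hqS
      exact pin g F L f θ hG hsq v.asIdeal v.isPrime v.ne_bot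
        (by rw [e1]; exact a1 _ v.isPrime hqw cw) _ hx hN 𝔓 w1
  by_cases cr : ∃ w : HeightOneSpectrum (𝓞 M), w.under (𝓞 F) = v ∧ ¬ UnrW F w
  · obtain ⟨w, hw, hwu⟩ := cr
    have := hram w hwu
    rw [hw] at this
    exact pin g F L f θ hG hsq v.asIdeal v.isPrime v.ne_bot this _ hx hN 𝔓 w1
  have hvT : v ∉ TM F M J := by
    rintro (h | h | h)
    · exact c2 h
    · exact cq h
    · exact cr h
  by_cases cu : 𝔓.valuation L (aeval θ (derivative (fF f))) = 1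
  · exact key 𝔓 (hv ▸ hvT) cu
  · have v1 : 𝔓.valuation L (aeval θ (derivative (fF f))) < 1 :=
      lt_of_le_of_ne (val_der hG 𝔓) cu
    obtain ⟨⟨c, hc⟩, hother⟩ := hram' g F L f θ hG hsq v.asIdeal v.isPrime v.ne_bot 𝔓 w1 v1
    refine par g F L f θ hG hsq v.asIdeal v.isPrime v.ne_bot 𝔓 c w1 hc _ hx hN ?_
    intro 𝔓' o' n'
    have ew : v = 𝔓'.under (𝓞 F) := by
      ext1
      exact v.isMaximal.eq_of_le (𝔓'.under (𝓞 F)).isPrime.ne_top (ov_iff.1 o')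
    exact key 𝔓' (ew ▸ hvT) (hother 𝔓' o' n')

theorem base_u0 (hS : GoodS g W S 𝔮 r P)
    (hJS : J ⊆ S) (htop : im F M Ω ⊔ im F L Ω = ⊤)
    (hspl : ∀ w : HeightOneSpectrum (𝓞 M), (∃ q ∈ J, (q : 𝓞 F) ∈ (w.under (𝓞 F)).asIdeal) →
      UnrW F w ∧ ResW F w)
    {x η : L} (hC : Cs (TM F M J) 𝔮 J (algebraMap L Ω θ) (algebraMap L Ω η) (algebraMap L Ω x)) :
    ∀ q ∈ J, ∀ 𝔓 : HeightOneSpectrum (𝓞 L), Ov (𝔮 q) 𝔓 → 𝔓.valuation L θ = 1 →
      U0 𝔓 ((q : L) * θ) x := by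
  intro q hq 𝔓 h1 h2
  obtain ⟨𝔓', h3⟩ := exists_above (Ω := Ω) 𝔓
  have hqS := hJS hq
  have e1 : (𝔓'.under (𝓞 M)).under (𝓞 F) = 𝔓.under (𝓞 F) := by
    rw [under_under (L := L), h3]
  have hqm : (q : 𝓞 F) ∈ ((𝔓'.under (𝓞 M)).under (𝓞 F)).asIdeal := by
    rw [e1, ← under_q hS hqS h1]
    exact (hS q hqS).2.2.2.2.2.2.1
  obtain ⟨hu0, hr0⟩ := hspl (𝔓'.under (𝓞 M)) ⟨q, hq, hqm⟩
  have hu : UnrW L 𝔓' := unr_top htop 𝔓' hu0
  have hv : ∀ y : L, 𝔓'.valuation Ω (algebraMap L Ω y) = 𝔓.valuation L y := by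
    intro y
    rw [hu y, h3]
  have hd := dens_top htop 𝔓' hu0 hr0
  have hQ' : Ov (𝔮 q) 𝔓' := by
    rw [ov_iff, ← under_tower (L := L), h3, ← ov_iff]
    exact h1
  have h5 := hC.u0 q hq 𝔓' hQ' (by rw [hv]; exact h2)
  refine ⟨fun h4 => sq_down hv hd (h5.1 ((ev_down hv x).2 h4)), fun h4 => ?_⟩
  have h6 := h5.2 fun h7 => h4 ((ev_down hv x).1 h7)
  have e : algebraMap L Ω x * ((q : Ω) * algebraMap L Ω θ) =
      algebraMap L Ω (x * ((q : L) * θ)) := by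
    rw [map_mul, map_mul, map_natCast]
  rw [e] at h6
  exact sq_down hv hd h6

end Pool.Agent.H30H
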