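import Pool.Agent.H30H.Comp
import Pool.Agent.N783.PF.Loc
import Pool.Agent.N922.PQ.Big
import Pool.Agent.N415.PQ.SigLie
import Pool.Agent.N539.PP.Cls
import Pool.Agent.N771.PF.Core

/-!
# The conditions over the extension at the primes which are not above two
-/

set_option autoImplicit false
set_option linter.all false

open Polynomial IsDedekindDomain NumberField Module
open scoped Classical IntermediateField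

namespace Pool.Agent.H30H

open Pool.Agent.N692.PMTOW (im)
open Pool.Agent.N783.PF
open Pool.Agent.N874.PP (Ev Sq1 U0)
open Pool.Agent.N922.PQ (ev_sq ev_mul ev_down sq_down)
open Pool.Agent.H30EV (exists_above)

theorem ov_iff {F Ω : Type} [Field F] [NumberField F] [Field Ω] [NumberField Ω] [Algebra F Ω]
    {𝔭 : Ideal (𝓞 F)} {𝔓 : HeightOneSpectrum (𝓞 Ω)} :
    Ov 𝔭 𝔓 ↔ 𝔭 ≤ (𝔓.under (𝓞 F)).asIdeal := by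
  constructor
  · intro h a ha
    exact (mem_under 𝔓 a).2 (h a ha)
  · intro h a ha
    exact (mem_under 𝔓 a).1 (h ha)

section cond

variable {F Ω : Type} [Field F] [NumberField F] [Field Ω] [NumberField Ω] [Algebra F Ω]

/-- The conditions. -/
structure Cs (T : Set (HeightOneSpectrum (𝓞 F))) (𝔮 : ℕ → Ideal (𝓞 F)) (J : Finset ℕ)
    (θ η x : Ω) : Prop where
  ev : ∀ 𝔓 : HeightOneSpectrum (𝓞 Ω), 𝔓.under (𝓞 F) ∉ T → 𝔓.valuation Ω η = 1 → Ev 𝔓 x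
  u0 : ∀ q ∈ J, ∀ 𝔓 : HeightOneSpectrum (𝓞 Ω), Ov (𝔮 q) 𝔓 → 𝔓.valuation Ω θ = 1 →
    U0 𝔓 ((q : Ω) * θ) x

variable {T : Set (HeightOneSpectrum (𝓞 F))} {𝔮 : ℕ → Ideal (𝓞 F)} {J : Finset ℕ} {θ η : Ω}

theorem cs_sq {x : Ω} (hx : x ≠ 0) : Cs T 𝔮 J θ η (x ^ 2) where
  ev 𝔓 _ _ := ev_sq 𝔓 x
  u0 q _ 𝔓 _ _ := by
    refine ⟨fun _ => ⟨x, ?_⟩, fun h => absurd (ev_sq 𝔓 x) h⟩
    rw [sub_self, map_zero, zero_lt_iff]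
    exact (Valuation.ne_zero_iff _).2 (pow_ne_zero _ hx)

theorem cs_mul
    (hϖ : ∀ q ∈ J, ∀ 𝔓 : HeightOneSpectrum (𝓞 Ω), Ov (𝔮 q) 𝔓 → 𝔓.valuation Ω θ = 1 →
      ¬ Ev 𝔓 ((q : Ω) * θ)) {x y : Ω} (hx : x ≠ 0) (hy : y ≠ 0)
    (h : Cs T 𝔮 J θ η x) (h' : Cs T 𝔮 J θ η y) : Cs T 𝔮 J θ η (x * y) where
  ev 𝔓 h1 h2 := ev_mul (h.ev 𝔓 h1 h2) (h'.ev 𝔓 h1 h2)
  u0 q hq 𝔓 h1 h3 := by
    haveI : Finite (𝓞 Ω ⧸ 𝔓.asIdeal) := Ideal.finiteQuotientOfFreeOfNeBot 𝔓.asIdeal 𝔓.ne_bot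
    have h4 := hϖ q hq 𝔓 h1 h3
    have h5 : (q : Ω) * θ ≠ 0 := by
      intro h0
      apply h4
      rw [h0]
      exact ⟨0, by simp⟩
    exact (Pool.Agent.N539.PP.u0_mul_iff 𝔓 hx hy h5 h4).2
      ⟨fun _ => h'.u0 q hq 𝔓 h1 h3, fun _ => h.u0 q hq 𝔓 h1 h3⟩

variable {L : Type} [Field L] [NumberField L] [Algebra L Ω] [Algebra F L] [IsScalarTower F L Ω]

theorem cs_sig {θ₀ η₀ : L} (hθ : θ = algebraMap L Ω θ₀) (hη : η = algebraMap L Ω η₀)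
    (σ : Ω ≃ₐ[L] Ω) {x : Ω} (h : Cs T 𝔮 J θ η x) : Cs T 𝔮 J θ η (σ x) := by
  have hf : ∀ y : L, σ (algebraMap L Ω y) = algebraMap L Ω y := fun y => σ.commutes y
  have key := Pool.Agent.N415.PQ.sig Ω (𝓞 Ω) (σ : Ω ≃+* Ω)
  have hund : ∀ (𝔓 𝔓' : HeightOneSpectrum (𝓞 Ω)),
      (∀ y : Ω, 𝔓'.valuation Ω y = 𝔓.valuation Ω (σ y)) →
      𝔓'.under (𝓞 F) = 𝔓.under (𝓞 F) := by
    intro 𝔓 𝔓' hv
    ext a
    rw [mem_under, mem_under, ← HeightOneSpectrum.valuation_lt_one_iff_mem (K := Ω),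
      ← HeightOneSpectrum.valuation_lt_one_iff_mem (K := Ω) 𝔓]
    have e : algebraMap (𝓞 Ω) Ω (algebraMap (𝓞 F) (𝓞 Ω) a) =
        algebraMap L Ω (algebraMap F L (a : F)) := by
      rw [← IsScalarTower.algebraMap_apply F L Ω]
      rfl
    change 𝔓'.valuation Ω (algebraMap (𝓞 Ω) Ω (algebraMap (𝓞 F) (𝓞 Ω) a)) < 1 ↔
      𝔓.valuation Ω (algebraMap (𝓞 Ω) Ω (algebraMap (𝓞 F) (𝓞 Ω) a)) < 1
    rw [e, hv, hf]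
  have hev : ∀ (𝔓 𝔓' : HeightOneSpectrum (𝓞 Ω)),
      (∀ y : Ω, 𝔓'.valuation Ω y = 𝔓.valuation Ω (σ y)) → ∀ y : Ω, Ev 𝔓' y ↔ Ev 𝔓 (σ y) := by
    intro 𝔓 𝔓' hv y
    constructor
    · rintro ⟨z, hz⟩
      exact ⟨σ z, by rw [← hv, ← hv, hz]⟩
    · rintro ⟨z, hz⟩
      refine ⟨σ.symm z, ?_⟩
      rw [hv, hv, σ.apply_symm_apply, hz]
  have hsq : ∀ (𝔓 𝔓' : HeightOneSpectrum (𝓞 Ω)),
      (∀ y : Ω, 𝔓'.valuation Ω y = 𝔓.valuation Ω (σ y)) → ∀ y : Ω, Sq1 𝔓' y → Sq1 𝔓 (σ y) := by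
    rintro 𝔓 𝔓' hv y ⟨z, hz⟩
    refine ⟨σ z, ?_⟩
    rw [hv, hv, map_sub, map_pow] at hz
    exact hz
  refine ⟨fun 𝔓 h1 h2 => ?_, fun q hq 𝔓 h1 h2 => ?_⟩
  · obtain ⟨𝔓', hv, -⟩ := key 𝔓
    have hv' : ∀ y : Ω, 𝔓'.valuation Ω y = 𝔓.valuation Ω (σ y) := hv
    refine (hev 𝔓 𝔓' hv' x).1 (h.ev 𝔓' ?_ ?_)
    · rw [hund 𝔓 𝔓' hv']
      exact h1
    · rw [hv', hη, hf, ← hη]
      exact h2
  · obtain ⟨𝔓', hv, -⟩ := key 𝔓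
    have hv' : ∀ y : Ω, 𝔓'.valuation Ω y = 𝔓.valuation Ω (σ y) := hv
    have h3 := h.u0 q hq 𝔓' (by rw [ov_iff, hund 𝔓 𝔓' hv', ← ov_iff]; exact h1)
      (by rw [hv', hθ, hf, ← hθ]; exact h2)
    refine ⟨fun h4 => hsq 𝔓 𝔓' hv' x (h3.1 ((hev 𝔓 𝔓' hv' x).2 h4)), fun h4 => ?_⟩
    have h5 := hsq 𝔓 𝔓' hv' _ (h3.2 fun h6 => h4 ((hev 𝔓 𝔓' hv' x).1 h6))
    rw [map_mul, map_mul, map_natCast, hθ, hf, ← hθ] at h5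
    exact h5

end cond

end Pool.Agent.H30H
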