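import Pool.Agent.H30H.Gal

/-!
# The compositum with a Galois extension of a number field
-/

set_option autoImplicit false
set_option linter.all false

open Polynomial IsDedekindDomain NumberField Module
open scoped Classical IntermediateField Pointwise

namespace Pool.Agent.H30H

open Pool.Agent.N692.PMTOW (im adj_top normal_of_top mem_im_iff mem_im finrank_im)
open Pool.Agent.H30EV (val_of_inertia dens_of_stab exists_above)

variable {F L M Ω : Type} [Field F] [NumberField F] [Field L] [NumberField L] [Field M]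
  [NumberField M] [Field Ω] [NumberField Ω] [Algebra F L] [Algebra F M] [Algebra L Ω] [Algebra M Ω]
  [Algebra F Ω] [IsScalarTower F L Ω] [IsScalarTower F M Ω]

theorem algO (x : 𝓞 F) : algebraMap (𝓞 M) (𝓞 Ω) (algebraMap (𝓞 F) (𝓞 M) x) =
    algebraMap (𝓞 F) (𝓞 Ω) x := by
  apply RingOfIntegers.ext
  exact (IsScalarTower.algebraMap_apply F M Ω (x : F)).symm

/-- The field generated by `M` and `L`. -/
theorem sup_top {m g : ℕ} (hM : finrank F M = 2 ^ m) (hL : finrank F L = 2 * g + 1)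
    (hΩ : finrank M Ω = 2 * g + 1) : im F M Ω ⊔ im F L Ω = ⊤ := by
  have f1 : FiniteDimensional F M := .of_finrank_pos (by rw [hM]; positivity)
  have f2 : FiniteDimensional M Ω := .of_finrank_pos (by rw [hΩ]; omega)
  have f3 : FiniteDimensional F Ω := FiniteDimensional.trans F M Ω
  have h1 : finrank F Ω = 2 ^ m * (2 * g + 1) := by rw [← finrank_mul_finrank F M Ω, hM, hΩ]
  have h2 : 2 ^ m ∣ finrank F (im F M Ω ⊔ im F L Ω : IntermediateField F Ω) := by
    rw [← hM, ← finrank_im (K := F) (L := M) (Ω := Ω)]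
    exact IntermediateField.finrank_dvd_of_le_right le_sup_left
  have h3 : (2 * g + 1) ∣ finrank F (im F M Ω ⊔ im F L Ω : IntermediateField F Ω) := by
    rw [← hL, ← finrank_im (K := F) (L := L) (Ω := Ω)]
    exact IntermediateField.finrank_dvd_of_le_right le_sup_right
  have h4 : 2 ^ m * (2 * g + 1) ∣ finrank F (im F M Ω ⊔ im F L Ω : IntermediateField F Ω) := by
    refine Nat.Coprime.mul_dvd_of_dvd_of_dvd (Nat.Coprime.pow_left m ?_) h2 h3
    exact (Nat.coprime_two_left).2 ⟨g, rfl⟩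
  refine IntermediateField.eq_of_le_of_finrank_le le_top ?_
  rw [IntermediateField.finrank_top', h1]
  exact Nat.le_of_dvd finrank_pos h4

variable [IsGalois F M]

theorem isGal (htop : im F M Ω ⊔ im F L Ω = ⊤) : IsGalois L Ω := by
  haveI : FiniteDimensional L Ω := Module.Finite.of_restrictScalars_finite ℚ L Ω
  haveI : FiniteDimensional F M := Module.Finite.of_restrictScalars_finite ℚ F M
  haveI : Normal L Ω := normal_of_top htop
  haveI : Algebra.IsSeparable L Ω := inferInstance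
  exact {}

/-- Restriction to `M`. -/
theorem restr (htop : im F M Ω ⊔ im F L Ω = ⊤) (σ : Ω ≃ₐ[L] Ω) :
    ∃ τ : M ≃ₐ[F] M, (∀ x : M, algebraMap M Ω (τ x) = σ (algebraMap M Ω x)) ∧
      (τ = 1 → σ = 1) := by
  have hcomm : ∀ x : M, algebraMap M Ω (((σ.restrictScalars F).restrictNormal M) x) =
      σ (algebraMap M Ω x) := fun x => AlgEquiv.restrictNormal_commutes (σ.restrictScalars F) M x
  refine ⟨(σ.restrictScalars F).restrictNormal M, hcomm, fun h => ?_⟩
  apply AlgEquiv.ext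
  intro x
  refine IntermediateField.adjoin_induction L (p := fun x _ => σ x = (1 : Ω ≃ₐ[L] Ω) x) ?_ ?_ ?_
    ?_ ?_ (adj_top (K := F) (L := L) (M := M) htop x)
  · rintro _ ⟨m, rfl⟩
    rw [← hcomm, h]
    rfl
  · intro y
    rw [AlgEquiv.commutes, AlgEquiv.commutes]
  · intro y z _ _ hy hz
    rw [map_add, map_add, hy, hz]
  · intro y _ hy
    rw [map_inv₀, map_inv₀, hy]
  · intro y z _ _ hy hz
    rw [map_mul, map_mul, hy, hz]

theorem unr_top (htop : im F M Ω ⊔ im F L Ω = ⊤) (𝔓 : HeightOneSpectrum (𝓞 Ω))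
    (hu : UnrW F (𝔓.under (𝓞 M))) : UnrW L 𝔓 := by
  haveI := isGal htop
  intro x
  refine val_of_inertia 𝔓 (fun σ hσ => ?_) x
  obtain ⟨τ, h1, h2⟩ := restr htop σ
  apply h2
  refine inertia_triv (𝔓.under (𝓞 M)) hu τ fun y => ?_
  rw [mem_under]
  have e : algebraMap (𝓞 M) (𝓞 Ω) (τ • y - y) = σ • (algebraMap (𝓞 M) (𝓞 Ω) y) -
      algebraMap (𝓞 M) (𝓞 Ω) y := by
    rw [map_sub]
    congr 1
    apply RingOfIntegers.ext
    exact h1 (y : M)
  rw [e]
  exact hσ _

theorem dens_top (htop : im F M Ω ⊔ im F L Ω = ⊤) (𝔓 : HeightOneSpectrum (𝓞 Ω))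
    (hu : UnrW F (𝔓.under (𝓞 M))) (hr : ResW F (𝔓.under (𝓞 M))) (s : Ω) (hs : s ≠ 0) :
    ∃ s₀ : L, 𝔓.valuation Ω (s - algebraMap L Ω s₀) < 𝔓.valuation Ω s := by
  haveI := isGal htop
  refine dens_of_stab 𝔓 (fun σ hσ => ?_) s hs
  obtain ⟨τ, h1, h2⟩ := restr htop σ
  apply h2
  refine stab_triv (𝔓.under (𝓞 M)) hu hr τ fun y hy => ?_
  rw [mem_under] at hy ⊢
  have e : algebraMap (𝓞 M) (𝓞 Ω) (τ • y) = σ • (algebraMap (𝓞 M) (𝓞 Ω) y) := by
    apply RingOfIntegers.ext
    exact h1 (y : M)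
  rw [e]
  exact hσ _ hy

omit [IsGalois F M] in
/-- The prime of `F` below. -/
theorem under_under (𝔓 : HeightOneSpectrum (𝓞 Ω)) :
    (𝔓.under (𝓞 M)).under (𝓞 F) = (𝔓.under (𝓞 L)).under (𝓞 F) := by
  ext x
  rw [mem_under, mem_under, mem_under, mem_under, algO, algO]

end Pool.Agent.H30H
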