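import Pool.Agent.H30H.Adm
import Pool.Agent.Helper29J.Main2

/-!
# A positive proportion with trivial 2-Selmer groups over all the admissible extensions
-/

set_option autoImplicit false
set_option linter.all false

open Polynomial NumberField IsDedekindDomain
open scoped Classical

namespace Pool.Agent.H30H

open Pool.Agent.N783.PF Pool.Agent.N99.PF
open Pool.Agent.N352.PJ (dd)
open Pool.Agent.N170.PF (LBad.mono fF_scale)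
open Pool.Agent.Helper29J (NoSq exists_f₂ cg_scale famX nonbot)

/-- The property of the polynomial. -/
def Good (F : Type) [Field F] [NumberField F] (g : ℕ) (f : (𝓞 F)[X]) : Prop :=
  Irreducible (fF f) ∧ Min g f ∧
  ∀ (M : Type) [Field M] [NumberField M] [Algebra F M], Admissible M f →
    SelZero (extend M f) ∧ Irreducible (fF (extend M f))

/-- The choice of the twist. -/
theorem tw2 (g : ℕ) (F : Type) [Field F] [NumberField F] (hg : 1 ≤ g) : ∃ κ : ℕ,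
    ∀ (B N W : ℕ) (f₁ : (𝓞 F)[X]) (S : Finset ℕ) (𝔮 : ℕ → Ideal (𝓞 F)) (r P : ℕ → (𝓞 F)[X])
    (f : (𝓞 F)[X]), κ ≤ W → GoodF g W f₁ → GoodS g W S 𝔮 r P → Fam g B W f₁ S P f →
    2 ^ κ * B ≤ 4 ^ N → 1 ≤ B → ¬ LBad g N κ S 𝔮 P f →
    ∃ J ⊆ S, Good F g (f.scaleRoots ((Dp J : ℕ) : 𝓞 F)) := by
  obtain ⟨κ₁, hκ₁⟩ := core g F hg
  obtain ⟨κ₂, hκ₂⟩ := sqf g F hg
  refine ⟨max κ₁ κ₂, fun B N W f₁ S 𝔮 r P f hW hf₁ hS hF hBN hB hnb => ?_⟩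
  have hBN1 : 2 ^ κ₁ * B ≤ 4 ^ N :=
    (Nat.mul_le_mul_right _ (Nat.pow_le_pow_right (by norm_num) (le_max_left _ _))).trans hBN
  have hBN2 : 2 ^ κ₂ * B ≤ 4 ^ N :=
    (Nat.mul_le_mul_right _ (Nat.pow_le_pow_right (by norm_num) (le_max_right _ _))).trans hBN
  have hnb1 : ¬ LBad g N κ₁ S 𝔮 P f := fun h => hnb (LBad.mono (le_max_left _ _) h)
  have hnb2 : ¬ LBad g N κ₂ S 𝔮 P f := fun h => hnb (LBad.mono (le_max_right _ _) h)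
  have hm := hF.ht.mon
  have hd := hF.ht.deg
  have hirr : Irreducible (fF f) := Pool.Agent.N667.PF.irr F g W f₁ f hf₁ hF.one hm hd
  have hsq : SqF g f := hκ₂ B N W f₁ S 𝔮 r P f ((le_max_right _ _).trans hW) hf₁ hS hF hirr hBN2
    hB hnb2
  obtain ⟨L, _, _, _, θ, hc⟩ := Pool.Agent.N667.PF.gen F g f hm hd hirr
  obtain ⟨J, hJ, hcore⟩ := hκ₁ L f f₁ θ B N W S 𝔮 r P ((le_max_left _ _).trans hW) hc hsq hf₁ hS
    hF hBN1 hB hnb1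
  have hD0 : Dp J ≠ 0 := by
    rw [Dp, Finset.prod_ne_zero_iff]
    exact fun q hq => (hS q (hJ hq)).1.ne_zero
  refine ⟨J, hJ, ?_, Pool.Agent.N547.PF.min g W F S J 𝔮 r P f hg hS hsq hm hd hF.con hJ, ?_⟩
  · rw [fF_scale hm]
    exact Pool.Agent.N170.PF.irr_scale (Nat.cast_ne_zero.2 hD0) hirr
  · intro M _ _ _ hadm
    haveI := hadm.galois
    obtain ⟨n, hn⟩ := hadm.degree
    exact sel_M hg hirr hc hsq hf₁ hS hF.one hF.con hJ hcore M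
      (adm_of hm (fun q hq => ⟨(hS q (hJ hq)).1, by
        have := (hS q (hJ hq)).2.2.2.1
        rintro rfl
        omega⟩) hadm) hn

/-- The count for an arbitrary property of a twist. -/
theorem main_gen (g : ℕ) (F : Type) [Field F] [NumberField F] (hg : 1 ≤ g)
    (Pr : (𝓞 F)[X] → Prop)
    (h4 : ∃ κ : ℕ, ∀ (B N W : ℕ) (f₁ : (𝓞 F)[X]) (S : Finset ℕ) (𝔮 : ℕ → Ideal (𝓞 F))
      (r P : ℕ → (𝓞 F)[X]) (f : (𝓞 F)[X]), κ ≤ W → GoodF g W f₁ → GoodS g W S 𝔮 r P →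
      Fam g B W f₁ S P f → 2 ^ κ * B ≤ 4 ^ N → 1 ≤ B → ¬ LBad g N κ S 𝔮 P f →
      ∃ J ⊆ S, Pr (f.scaleRoots ((Dp J : ℕ) : 𝓞 F))) : ∃ f₁ : (𝓞 F)[X],
    (∀ v : HeightOneSpectrum (𝓞 F), (2 : 𝓞 F) ∈ v.asIdeal → NoSq v.asIdeal f₁ ∧
      Irreducible (rd v.asIdeal f₁)) ∧
    ∃ c : ℝ, 0 < c ∧ ∃ B₀ : ℕ, ∀ B ≥ B₀,
    {f : (𝓞 F)[X] | Ht g B f}.Finite ∧ c * ({f : (𝓞 F)[X] | Ht g B f}.ncard : ℝ) ≤
    ({f : (𝓞 F)[X] | Ht g B f ∧ Pr f ∧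
      ∀ n, (8 : 𝓞 F) ∣ f.coeff n - f₁.coeff n}.ncard : ℝ) := by
  have h0 := Pool.Agent.N490.PF.pts
  have h2 := bad
  have h3 := Pool.Agent.N710.PF.exs
  obtain ⟨κ, htw⟩ := h4
  obtain ⟨C, K, hbad⟩ := h2 F g κ hg
  obtain ⟨M, hM⟩ := famX Pool.Agent.N352.PF.bxT
    (Pool.Agent.N352.PF.SML99.sml Pool.Agent.N75.PF.cu Pool.Agent.N352.PF.bxT
      Pool.Agent.N189.PF.ld Pool.Agent.N195.PF.pr Pool.Agent.N195.PF.pf)
    Pool.Agent.N935.PF.WK.wk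
    (Pool.Agent.N352.PF.STR331.str Pool.Agent.N75.PF.cu Pool.Agent.N364.PF.cl
      Pool.Agent.N195.PF.pf)
    Pool.Agent.N195.PF.dscp Pool.Agent.N195.PF.pf F g hg
  obtain ⟨p₀, hp₀K, hp₀⟩ := Nat.exists_infinite_primes (max K κ)
  obtain ⟨W₀, f₀, hmon, hdeg, htr, hW0, htwo, hirr, hsep, hW⟩ :=
    Pool.Agent.N823.PF.gf F g (max p₀ M) hg
  have hgood0 : GoodF g W₀ f₀ := by
    refine ⟨hmon, hdeg, htr, hW0, htwo, ?_, ?_⟩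
    · intro 𝔭 hp h2m
      have hb : 𝔭 ≠ ⊥ := nonbot 𝔭 2 two_pos (by exact_mod_cast h2m)
      exact hirr ⟨𝔭, hp, hb⟩ h2m
    · intro 𝔭 hp hWm
      exact hsep ⟨𝔭, hp, nonbot 𝔭 W₀ hW0 hWm⟩ hWm
  obtain ⟨f₁, hf₁', hno⟩ := exists_f₂ hg hgood0
  obtain ⟨W, hWd⟩ : ∃ W, W = 8 * W₀ := ⟨_, rfl⟩
  have hf₁ : GoodF g W f₁ := by
    rw [hWd]
    exact hf₁'
  have h8W : 8 ∣ W := ⟨W₀, hWd⟩
  have hKW : max K κ ≤ W := hp₀K.trans ((Nat.le_of_dvd hW0 (hW p₀ hp₀ (le_max_left _ _))).trans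
    (by omega))
  obtain ⟨c, hc, hfam⟩ := hM W f₁ hf₁ (fun p hp hpM => by
    rw [hWd]
    exact Dvd.dvd.mul_left (hW p hp (hpM.trans (le_max_right _ _))) 8)
  refine ⟨f₁, fun v hv => ⟨hno v hv, hf₁.irr v.asIdeal v.isPrime hv⟩, ?_⟩
  obtain ⟨-, Cp, hCp, -, hpt⟩ := h0 F
  set D : ℕ := Module.finrank ℚ F * dd g with hD
  obtain ⟨m, hm⟩ : ∃ m : ℕ, 2 * (C * (4 * 2 ^ κ : ℝ) ^ D) / c < 2 ^ m :=
    pow_unbounded_of_one_lt _ (by norm_num)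
  obtain ⟨S, 𝔮, h, P, hS, hcard⟩ := h3 F g W hg m
  obtain ⟨B₁₀, hB₁₀⟩ := hfam S 𝔮 h P hS
  obtain ⟨N₀, hN₀⟩ := hbad W S 𝔮 h P ((le_max_left _ _).trans hKW) hS
  set Q : ℕ := ∏ q ∈ S, q with hQ
  have hq1 : ∀ q ∈ S, 1 ≤ q := fun q hq => (hS q hq).1.pos
  have hQ1 : 1 ≤ Q := Finset.one_le_prod' hq1
  set Pn : ℕ := (∏ q ∈ S, q ^ (2 * g)) ^ Module.finrank ℚ F with hPn
  have hP0 : (0 : ℝ) < Pn := by
    have : 0 < Pn := pow_pos (Finset.prod_pos fun q hq => pow_pos (hq1 q hq) _) _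
    exact_mod_cast this
  have hQ0 : (0 : ℝ) < Q := by exact_mod_cast hQ1
  set X₀ : ℕ := max (max B₁₀ (4 ^ N₀)) 1 with hX₀
  refine ⟨c / 2 / (Pn * 2 ^ m * ((2 * Cp) ^ (2 * g) * (2 * Q) ^ D)), by positivity, X₀ * Q,
    fun B hB => ?_⟩
  set B₁ : ℕ := B / Q with hB₁
  have hBX : X₀ ≤ B₁ := (Nat.le_div_iff_mul_le hQ1).2 hB
  have hb1 : 1 ≤ B₁ := (le_max_right _ _).trans hBX
  have hb2 : B₁₀ ≤ B₁ := ((le_max_left _ _).trans (le_max_left _ _)).trans hBX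
  have hb3 : 4 ^ N₀ ≤ B₁ := ((le_max_right _ _).trans (le_max_left _ _)).trans hBX
  have hBQ : B₁ * Q ≤ B := Nat.div_mul_le_self B Q
  have hBQ2 : B ≤ 2 * Q * B₁ := by
    have e1 : B < B₁ * Q + Q := by
      have := Nat.lt_div_mul_add (a := B) (b := Q) hQ1
      exact this
    nlinarith
  have hB1 : 1 ≤ B := le_trans (by nlinarith) hBQ
  obtain ⟨N, hNa, hNb⟩ : ∃ N : ℕ, 2 ^ κ * B₁ ≤ 4 ^ N ∧ 4 ^ N ≤ 4 * (2 ^ κ * B₁) := by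
    refine ⟨Nat.log 4 (2 ^ κ * B₁) + 1, (Nat.lt_pow_succ_log_self (by norm_num) _).le, ?_⟩
    rw [pow_succ, mul_comm]
    refine Nat.mul_le_mul_left 4 (Nat.pow_log_le_self 4 ?_)
    positivity
  have hNN : N₀ ≤ N := by
    have e1 : 4 ^ N₀ ≤ 4 ^ N := hb3.trans (le_trans (Nat.le_mul_of_pos_left _ (by positivity)) hNa)
    exact (Nat.pow_le_pow_iff_right (by norm_num)).1 e1
  obtain ⟨hfin, hBd⟩ := hN₀ N hNN
  refine ⟨(ht_card hCp hpt g B hB1).1, ?_⟩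
  set H := {f : (𝓞 F)[X] | Ht g B f ∧ Pr f ∧
      ∀ n, (8 : 𝓞 F) ∣ f.coeff n - f₁.coeff n} with hH
  set G := {f : (𝓞 F)[X] | Fam g B₁ W f₁ S P f} \ {f : (𝓞 F)[X] | LBad g N κ S 𝔮 P f} with hGdef
  have hHf : H.Finite := (ht_card hCp hpt g B hB1).1.subset fun f hf => hf.1
  have hGf : G.Finite := (ht_card hCp hpt g B₁ hb1).1.subset fun f hf => hf.1.ht
  have hG : c / 2 * (B₁ : ℝ) ^ D ≤ Pn * (G.ncard : ℝ) := by
    refine good_card (C := C) (m := m) (κ := κ) hc hP0 B₁ N (hB₁₀ B₁ hb2) hfin ?_ hm ?_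
    · rw [hcard] at hBd
      have e2 : Module.finrank ℚ F * (2 * N * dd g) = 2 * N * D := by rw [hD]; ring
      rw [e2] at hBd
      exact_mod_cast hBd
    · exact_mod_cast hNb
  have hJ0 : ∀ J ⊆ S, ((Dp J : ℕ) : 𝓞 F) ≠ 0 := by
    intro J hJ
    have : 0 < ∏ q ∈ J, q := Finset.prod_pos fun q hq => hq1 q (hJ hq)
    have h5 : (Dp J : ℕ) ≠ 0 := this.ne'
    exact_mod_cast h5
  have hcard1 := card_fib hGf hHf S (fun J f => f.scaleRoots ((Dp J : ℕ) : 𝓞 F)) (by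
      intro f hf
      obtain ⟨J, hJ, hpr⟩ := htw B₁ N W f₁ S 𝔮 h P f ((le_max_right _ _).trans hKW) hf₁ hS
        hf.1 hNa hb1 hf.2
      have hDle : Dp J ≤ Q :=
        Finset.prod_le_prod_of_subset_of_one_le' hJ fun q hq _ => hq1 q hq
      refine ⟨J, hJ, ht_scale hf.1.ht ((Nat.mul_le_mul_left _ hDle).trans hBQ), hpr,
        fun n => cg_scale hS hJ (fun k => ?_) n⟩
      have e1 := Ideal.mem_span_singleton.1 (hf.1.one k)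
      have e2 : (8 : 𝓞 F) ∣ ((W : ℕ) : 𝓞 F) := by
        obtain ⟨m, hm⟩ := h8W
        rw [hm]
        push_cast
        exact dvd_mul_right _ _
      exact e2.trans e1) (by
      intro J hJ x hx y hy hxy
      exact scale_inj (hJ0 J hJ) (by rw [hx.1.ht.deg, hy.1.ht.deg]) hxy)
  rw [hcard] at hcard1
  have hcard' : (G.ncard : ℝ) ≤ 2 ^ m * H.ncard := by exact_mod_cast hcard1
  have hM' : ({f : (𝓞 F)[X] | Ht g B f}.ncard : ℝ) ≤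
      (2 * Cp) ^ (2 * g) * (2 * Q) ^ D * (B₁ : ℝ) ^ D := by
    have e1 : ({f : (𝓞 F)[X] | Ht g B f}.ncard : ℝ) ≤ (2 * Cp) ^ (2 * g) * (B : ℝ) ^ D :=
      (ht_card hCp hpt g B hB1).2
    refine e1.trans ?_
    rw [mul_assoc, ← mul_pow]
    have e2 : (B : ℝ) ≤ 2 * Q * B₁ := by exact_mod_cast hBQ2
    gcongr
  calc c / 2 / (Pn * 2 ^ m * ((2 * Cp) ^ (2 * g) * (2 * Q) ^ D)) *
        ({f : (𝓞 F)[X] | Ht g B f}.ncard : ℝ)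
      ≤ c / 2 / (Pn * 2 ^ m * ((2 * Cp) ^ (2 * g) * (2 * Q) ^ D)) *
        ((2 * Cp) ^ (2 * g) * (2 * Q) ^ D * (B₁ : ℝ) ^ D) :=
        mul_le_mul_of_nonneg_left hM' (by positivity)
    _ = c / 2 * (B₁ : ℝ) ^ D / (Pn * 2 ^ m) := by
        field_simp
    _ ≤ (Pn * (G.ncard : ℝ)) / (Pn * 2 ^ m) := by gcongr
    _ ≤ (Pn * (2 ^ m * H.ncard)) / (Pn * 2 ^ m) := by gcongr
    _ = H.ncard := by field_simp

theorem many2 (g : ℕ) (F : Type) [Field F] [NumberField F] (hg : 1 ≤ g) : ∃ f₁ : (𝓞 F)[X],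
    (∀ v : HeightOneSpectrum (𝓞 F), (2 : 𝓞 F) ∈ v.asIdeal → NoSq v.asIdeal f₁ ∧
      Irreducible (rd v.asIdeal f₁)) ∧
    ∃ c : ℝ, 0 < c ∧ ∃ B₀ : ℕ, ∀ B ≥ B₀,
    {f : (𝓞 F)[X] | Ht g B f}.Finite ∧ c * ({f : (𝓞 F)[X] | Ht g B f}.ncard : ℝ) ≤
    ({f : (𝓞 F)[X] | Ht g B f ∧ Good F g f ∧
      ∀ n, (8 : 𝓞 F) ∣ f.coeff n - f₁.coeff n}.ncard : ℝ) :=
  main_gen g F hg (Good F g) (tw2 g F hg)

end Pool.Agent.H30H
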