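import Pool.Agent.Helper29J.Defs

/-!
# Admissible extensions for an odd hyperelliptic curve over a number field: the definitions
-/

set_option autoImplicit false

open Polynomial IsDedekindDomain NumberField

namespace Pool.Agent.H30H

section fields

variable {F : Type} [Field F] [NumberField F]

/-- The prime `v` of `F` is ramified in `M`: the ideal of the ring of integers of `M` generated by `v` is
contained in the square of a prime. -/
def Ramified (M : Type) [Field M] [NumberField M] [Algebra F M] (v : HeightOneSpectrum (𝓞 F)) :
    Prop :=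
  ∃ w : HeightOneSpectrum (𝓞 M), v.asIdeal.map (algebraMap (𝓞 F) (𝓞 M)) ≤ w.asIdeal ^ 2

/-- The prime `v` of `F` splits completely in `M`: for the primes `w` of `M` above `v` the ideal generated
by `v` is not contained in the square of `w`, and the residue field of `w` is that of `v`. -/
def SplitsCompletely (M : Type) [Field M] [NumberField M] [Algebra F M]
    (v : HeightOneSpectrum (𝓞 F)) : Prop :=
  ∀ w : HeightOneSpectrum (𝓞 M), v.asIdeal.map (algebraMap (𝓞 F) (𝓞 M)) ≤ w.asIdeal →
    ¬ v.asIdeal.map (algebraMap (𝓞 F) (𝓞 M)) ≤ w.asIdeal ^ 2 ∧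
      Nat.card (𝓞 M ⧸ w.asIdeal) = Nat.card (𝓞 F ⧸ v.asIdeal)

/-- The extension `M` of `F` is admissible for the polynomial `f`: it is a Galois extension of degree a power
of two; the primes above two split completely; the real embeddings of `F` extend to real embeddings of
`M`; the polynomial `f` is irreducible modulo the primes which are ramified in `M`; and the primes `v` which
are not above two with `f = x ^ (deg f)` modulo `v` split completely. -/
structure Admissible (M : Type) [Field M] [NumberField M] [Algebra F M] (f : (𝓞 F)[X]) :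
    Prop where
  galois : IsGalois F M
  degree : ∃ n : ℕ, Module.finrank F M = 2 ^ n
  two : ∀ v : HeightOneSpectrum (𝓞 F), (2 : 𝓞 F) ∈ v.asIdeal → SplitsCompletely M v
  real : ∀ ρ : F →+* ℝ, ∃ ρ' : M →+* ℝ, ∀ x : F, ρ' (algebraMap F M x) = ρ x
  ram : ∀ v : HeightOneSpectrum (𝓞 F), Ramified M v →
    Irreducible (f.map (Ideal.Quotient.mk v.asIdeal))
  split : ∀ v : HeightOneSpectrum (𝓞 F), (2 : 𝓞 F) ∉ v.asIdeal →
    f.map (Ideal.Quotient.mk v.asIdeal) = X ^ f.natDegree → SplitsCompletely M v

/-- The polynomial over the ring of integers of the extension `M`. -/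
noncomputable def extend (M : Type) [Field M] [NumberField M] [Algebra F M] (f : (𝓞 F)[X]) :
    (𝓞 M)[X] :=
  f.map (algebraMap (𝓞 F) (𝓞 M))

end fields

end Pool.Agent.H30H
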