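import Pool.Agent.H30H.Count
import Pool.Agent.Helper29J.Conv

/-!
# The condition modulo the squares of the primes above two, over the extension; the final step
-/

set_option autoImplicit false
set_option linter.all false

open Polynomial NumberField IsDedekindDomain
open scoped Classical

namespace Pool.Agent.H30H

open Pool.Agent.N783.PF
open Pool.Agent.Helper29J (NoSq Defs.OnlyInfinitySurvives Defs.overF)

variable {F M : Type} [Field F] [NumberField F] [Field M] [NumberField M] [Algebra F M]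

theorem mem_sq_iff (w : HeightOneSpectrum (𝓞 M)) (z : 𝓞 M) :
    z ∈ w.asIdeal ^ 2 ↔ w.valuation M (z : M) ≤ WithZero.exp (-((2 : ℕ) : ℤ)) := by
  rw [← w.intValuation_le_pow_iff_mem, ← HeightOneSpectrum.valuation_of_algebraMap (K := M)]

theorem under_sq (w : HeightOneSpectrum (𝓞 M)) (hu : UnrW F w) (y : 𝓞 F)
    (h : algebraMap (𝓞 F) (𝓞 M) y ∈ w.asIdeal ^ 2) : y ∈ (w.under (𝓞 F)).asIdeal ^ 2 := by
  rw [mem_sq_iff] at h ⊢
  rw [← hu]
  exact h

theorem surj_sq (w : HeightOneSpectrum (𝓞 M)) (hu : UnrW F w) (hr : ResW F w) (z : 𝓞 M) :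
    ∃ y : 𝓞 F, z - algebraMap (𝓞 F) (𝓞 M) y ∈ w.asIdeal ^ 2 := by
  obtain ⟨y₀, hy₀⟩ := hr z
  obtain ⟨π, hπ⟩ := (w.under (𝓞 F)).intValuation_exists_uniformizer
  have hπ1 : w.valuation M (algebraMap F M (π : F)) = WithZero.exp (-1 : ℤ) := by
    rw [hu, ← hπ]
    exact HeightOneSpectrum.valuation_of_algebraMap _ _
  have hπ0 : algebraMap F M (π : F) ≠ 0 := by
    intro h0
    rw [h0, map_zero] at hπ1
    exact WithZero.exp_ne_zero hπ1.symm
  obtain ⟨z₁, hz₁⟩ : ∃ z₁ : 𝓞 M, z₁ = z - algebraMap (𝓞 F) (𝓞 M) y₀ := ⟨_, rfl⟩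
  rw [← hz₁] at hy₀
  have hv1 : w.valuation M (z₁ : M) ≤ WithZero.exp (-1 : ℤ) := by
    have h1 := (w.intValuation_le_pow_iff_mem z₁ 1).2 (by rw [pow_one]; exact hy₀)
    rw [← HeightOneSpectrum.valuation_of_algebraMap (K := M)] at h1
    simpa using h1
  have hle : w.valuation M ((z₁ : M) / algebraMap F M (π : F)) ≤ 1 := by
    rw [map_div₀, hπ1]
    exact (div_le_one₀ WithZero.exp_pos).2 hv1
  obtain ⟨z₂, hz₂⟩ := HeightOneSpectrum.exists_valuation_sub_lt_of_integer w hle 1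
  rw [Units.val_one] at hz₂
  obtain ⟨y₂, hy₂⟩ := hr z₂
  refine ⟨y₀ + π * y₂, ?_⟩
  have e : z - algebraMap (𝓞 F) (𝓞 M) (y₀ + π * y₂) =
      (z₁ - algebraMap (𝓞 F) (𝓞 M) π * z₂) +
        algebraMap (𝓞 F) (𝓞 M) π * (z₂ - algebraMap (𝓞 F) (𝓞 M) y₂) := by
    rw [hz₁, map_add, map_mul]
    ring
  have hπw : algebraMap (𝓞 F) (𝓞 M) π ∈ w.asIdeal := by
    rw [← mem_under, ← HeightOneSpectrum.valuation_lt_one_iff_mem (K := F)]
    change (w.under (𝓞 F)).valuation F (algebraMap (𝓞 F) F π) < 1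
    rw [HeightOneSpectrum.valuation_of_algebraMap, hπ, ← WithZero.exp_zero, WithZero.exp_lt_exp]
    norm_num
  rw [e]
  refine Ideal.add_mem _ ?_ ?_
  · rw [mem_sq_iff]
    have e2 : algebraMap (𝓞 M) M (z₁ - algebraMap (𝓞 F) (𝓞 M) π * z₂) =
        - (algebraMap F M (π : F) * (algebraMap (𝓞 M) M z₂ -
          algebraMap (𝓞 M) M z₁ / algebraMap F M (π : F))) := by
      have e3 : algebraMap (𝓞 M) M (algebraMap (𝓞 F) (𝓞 M) π) = algebraMap F M (π : F) := rfl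
      rw [map_sub, map_mul, e3]
      field_simp
      ring
    change w.valuation M (algebraMap (𝓞 M) M (z₁ - algebraMap (𝓞 F) (𝓞 M) π * z₂)) ≤ _
    change w.valuation M (algebraMap (𝓞 M) M z₂ - algebraMap (𝓞 M) M z₁ /
      algebraMap F M (π : F)) < 1 at hz₂
    rw [e2, Valuation.map_neg, map_mul, hπ1]
    by_cases h0 : w.valuation M (algebraMap (𝓞 M) M z₂ - algebraMap (𝓞 M) M z₁ /
        algebraMap F M (π : F)) = 0
    · rw [h0, mul_zero]
      exact zero_le'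
    · rw [← WithZero.exp_log h0, ← WithZero.exp_zero, WithZero.exp_lt_exp] at hz₂
      rw [← WithZero.exp_log h0, ← WithZero.exp_add, WithZero.exp_le_exp]
      push_cast
      omega
  · rw [pow_two]
    exact Ideal.mul_mem_mul hπw hy₂

theorem noSq_up (w : HeightOneSpectrum (𝓞 M)) (hu : UnrW F w) (hr : ResW F w) {f : (𝓞 F)[X]}
    (h : NoSq (w.under (𝓞 F)).asIdeal f) : NoSq w.asIdeal (extend M f) := by
  intro a s u hn
  obtain ⟨φ, hφ⟩ : ∃ φ : 𝓞 F →+* 𝓞 M ⧸ w.asIdeal ^ 2,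
      φ = (Ideal.Quotient.mk (w.asIdeal ^ 2)).comp (algebraMap (𝓞 F) (𝓞 M)) := ⟨_, rfl⟩
  have hs : Function.Surjective φ := by
    intro z
    obtain ⟨z₀, rfl⟩ := Ideal.Quotient.mk_surjective z
    obtain ⟨y, hy⟩ := surj_sq w hu hr z₀
    refine ⟨y, ?_⟩
    rw [hφ]
    exact (Ideal.Quotient.eq.2 hy).symm
  have hs' := Polynomial.map_surjective φ hs
  obtain ⟨a₀, ha₀⟩ := hs (Ideal.Quotient.mk _ a)
  obtain ⟨s₀, hs₀⟩ := hs' (s.map (Ideal.Quotient.mk _))
  obtain ⟨u₀, hu₀⟩ := hs' (u.map (Ideal.Quotient.mk _))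
  have h1 : (C a - X - (s ^ 2 + extend M f * u)).map (Ideal.Quotient.mk (w.asIdeal ^ 2)) = 0 := by
    ext n
    rw [coeff_map, coeff_zero, Ideal.Quotient.eq_zero_iff_mem]
    exact hn n
  have h2 : (C a₀ - X - (s₀ ^ 2 + f * u₀)).map φ = 0 := by
    rw [← h1]
    have e : (extend M f).map (Ideal.Quotient.mk (w.asIdeal ^ 2)) = f.map φ := by
      rw [extend, Polynomial.map_map, hφ]
    simp only [Polynomial.map_sub, Polynomial.map_add, Polynomial.map_mul, Polynomial.map_pow,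
      map_C, map_X, e, hs₀, hu₀, ha₀]
  refine h a₀ s₀ u₀ fun n => ?_
  apply under_sq w hu
  have h3 := congrArg (fun p => p.coeff n) h2
  simp only [coeff_map, coeff_zero] at h3
  rw [hφ, RingHom.comp_apply, Ideal.Quotient.eq_zero_iff_mem] at h3
  exact h3

/-- The final step over the extension. -/
theorem fin_M {g : ℕ} (hg : 1 ≤ g) {f f₁ : (𝓞 F)[X]} (hm : f.Monic)
    (hd : f.natDegree = 2 * g + 1) (hG : Good F g f)
    (h8 : ∀ n, (8 : 𝓞 F) ∣ f.coeff n - f₁.coeff n)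
    (hf₁ : ∀ v : HeightOneSpectrum (𝓞 F), (2 : 𝓞 F) ∈ v.asIdeal → NoSq v.asIdeal f₁ ∧
      Irreducible (rd v.asIdeal f₁)) (hadm : Admissible M f) :
    (∀ k : ℕ, ∀ ξ ∈ Pool.Agent.Helper29J.Defs.SelmerSet
        (Pool.Agent.Helper29J.Defs.overF (extend M f)) (2 ^ k),
      ∃ T : Pool.Agent.Helper29J.Defs.J (Pool.Agent.Helper29J.Defs.overF (extend M f))
          (SeparableClosure M), T ^ 2 ^ k = 1 ∧
        ∀ σ : Pool.Agent.Helper29J.Defs.Gal M, ξ σ = Pool.Agent.Helper29J.Defs.mapJ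
          (Pool.Agent.Helper29J.Defs.overF (extend M f)) σ.toAlgHom T / T) ∧
    Pool.Agent.Helper29J.Defs.OnlyInfinitySurvives
      (Pool.Agent.Helper29J.Defs.overF (extend M f)) := by
  obtain ⟨hsel, hirr⟩ := hG.2.2 M hadm
  have hmM : (extend M f).Monic := hm.map _
  have hdM : (extend M f).natDegree = 2 * g + 1 := by
    rw [extend, hm.natDegree_map, hd]
  have h8M : ∀ n, (8 : 𝓞 M) ∣ (extend M f).coeff n - (extend M f₁).coeff n := by
    intro n
    have := map_dvd (algebraMap (𝓞 F) (𝓞 M)) (h8 n)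
    rw [map_sub, map_ofNat] at this
    rw [extend, extend, coeff_map, coeff_map]
    exact this
  have hf₁M : ∀ w : HeightOneSpectrum (𝓞 M), (2 : 𝓞 M) ∈ w.asIdeal →
      NoSq w.asIdeal (extend M f₁) ∧ Irreducible (rd w.asIdeal (extend M f₁)) := by
    intro w hw
    have h2 : (2 : 𝓞 F) ∈ (w.under (𝓞 F)).asIdeal := by
      rw [mem_under, map_ofNat]
      exact hw
    obtain ⟨hu, hr⟩ := spl_of (hadm.two _ h2) rfl
    exact ⟨noSq_up w hu hr (hf₁ _ h2).1, irr_res hr (hf₁ _ h2).2⟩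
  exact ⟨(Pool.Agent.Helper29J.core hg hmM hdM hirr hsel h8M hf₁M).1,
    Pool.Agent.Helper29J.core2 hg hmM hdM hirr hsel h8M hf₁M⟩

end Pool.Agent.H30H
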