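import Pool.Agent.H30H.Base

/-!
# The conditions for elements which are locally in the image, over the extension
-/

set_option autoImplicit false
set_option linter.all false

open Polynomial IsDedekindDomain NumberField Module
open scoped Classical IntermediateField

namespace Pool.Agent.H30H

open Pool.Agent.N692.PMTOW (im)
open Pool.Agent.N783.PF
open Pool.Agent.N874.PP (Ev Sq1 U0)
open Pool.Agent.N874.PM (Lies)
open Pool.Agent.N874.JM (LocF)
open Pool.Agent.N922.PQ (ev_sq ev_mul ev_down sq_down)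
open Pool.Agent.N78.PF (rd_eq sp_le val_theta val_der LOC1 LOC2)

section gen

variable {F M : Type} [Field F] [NumberField F] [Field M] [NumberField M] [Algebra F M]

theorem lies_under (w : HeightOneSpectrum (𝓞 M)) : Lies (M := F) (Ω := M) (w.under (𝓞 F)) w := by
  obtain ⟨v, -, h2, h3⟩ := Pool.Agent.N459.PF.lie F M w
  have e : v = w.under (𝓞 F) := by
    ext a
    rw [h2, mem_under]
  rw [← e]
  exact ⟨fun x => (h3 x).1, fun x => (h3 x).2⟩

theorem val_nat {w : HeightOneSpectrum (𝓞 M)} {n : ℕ} (h : (n : 𝓞 F) ∉ (w.under (𝓞 F)).asIdeal) :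
    w.valuation M (n : M) = 1 := by
  have h1 : (n : 𝓞 M) ∉ w.asIdeal := by
    intro h2
    apply h
    rw [mem_under, map_natCast]
    exact h2
  have := Pool.Agent.N78.PF.val_one (F := M) h1
  simpa using this

theorem irr_res {w : HeightOneSpectrum (𝓞 M)} (hr : ResW F w) {h : (𝓞 F)[X]}
    (hirr : Irreducible (rd (w.under (𝓞 F)).asIdeal h)) :
    Irreducible (rd w.asIdeal (h.map (algebraMap (𝓞 F) (𝓞 M)))) := by
  have hker : (w.under (𝓞 F)).asIdeal = RingHom.ker ((Ideal.Quotient.mk w.asIdeal).comp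
      (algebraMap (𝓞 F) (𝓞 M))) := by
    ext a
    rw [mem_under, RingHom.mem_ker, RingHom.comp_apply, Ideal.Quotient.eq_zero_iff_mem]
  have hs : Function.Surjective ((Ideal.Quotient.mk w.asIdeal).comp
      (algebraMap (𝓞 F) (𝓞 M))) := by
    intro z
    obtain ⟨z₀, rfl⟩ := Ideal.Quotient.mk_surjective z
    obtain ⟨y, hy⟩ := hr z₀
    exact ⟨y, (Ideal.Quotient.eq.2 hy).symm⟩
  let φ : (𝓞 F ⧸ (w.under (𝓞 F)).asIdeal) ≃+* (𝓞 M ⧸ w.asIdeal) :=
    (Ideal.quotEquivOfEq hker).trans (RingHom.quotientKerEquivOfSurjective hs)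
  have e : rd w.asIdeal (h.map (algebraMap (𝓞 F) (𝓞 M))) =
      Polynomial.mapEquiv φ (rd (w.under (𝓞 F)).asIdeal h) := by
    rw [Polynomial.mapEquiv_apply, rd, rd, Polynomial.map_map, Polynomial.map_map]
    congr 1
  rw [e]
  exact (MulEquiv.irreducible_iff (Polynomial.mapEquiv φ)).2 hirr

theorem sq_up {w : HeightOneSpectrum (𝓞 M)} (hu : UnrW F w) {x : F}
    (h : Sq1 (w.under (𝓞 F)) x) : Sq1 w (algebraMap F M x) := by
  obtain ⟨s, hs⟩ := h
  refine ⟨algebraMap F M s, ?_⟩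
  rw [← map_pow, ← map_sub, hu, hu]
  exact hs

end gen

variable {F L M Ω : Type} [Field F] [NumberField F] [Field L] [NumberField L] [Field M]
  [NumberField M] [Field Ω] [NumberField Ω] [Algebra F L] [Algebra F M] [Algebra L Ω] [Algebra M Ω]
  [Algebra F Ω] [IsScalarTower F L Ω] [IsScalarTower F M Ω]
  [IsGalois F M] {g W : ℕ} {f f₁ : (𝓞 F)[X]} {θ : L} {S J : Finset ℕ}
  {𝔮 : ℕ → Ideal (𝓞 F)} {r P : ℕ → (𝓞 F)[X]}

/-- the valuation of `q` and square classes at the primes over `𝔮 q` at which `θ` is a unit -/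
theorem q_top (hg : 1 ≤ g) (hG : IsGen g f θ) (hsq : SqF g f)
    (hS : GoodS g W S 𝔮 r P) (hcq : ∀ q ∈ S, Cg (sp F q) f (P q))
    (hJS : J ⊆ S) (htop : im F M Ω ⊔ im F L Ω = ⊤)
    (hspl : ∀ w : HeightOneSpectrum (𝓞 M), (∃ q ∈ J, (q : 𝓞 F) ∈ (w.under (𝓞 F)).asIdeal) →
      UnrW F w ∧ ResW F w)
    {q : ℕ} (hq : q ∈ J) (𝔓 : HeightOneSpectrum (𝓞 Ω)) (h1 : Ov (𝔮 q) 𝔓)
    (h2 : 𝔓.valuation Ω (algebraMap L Ω θ) = 1) :
    𝔓.valuation Ω (q : Ω) = WithZero.exp (-1 : ℤ) ∧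
    (∀ c : 𝓞 F, c ∉ 𝔮 q → Sq1 𝔓 (algebraMap F Ω (c : F))) ∧
    UnrW F (𝔓.under (𝓞 M)) ∧ ResW F (𝔓.under (𝓞 M)) ∧
    ¬ Ev 𝔓 ((q : Ω) * algebraMap L Ω θ) := by
  have hqS := hJS hq
  have e1 : (𝔓.under (𝓞 M)).under (𝓞 F) = 𝔓.under (𝓞 F) := under_tower (L := M) 𝔓
  have hqm : (q : 𝓞 F) ∈ ((𝔓.under (𝓞 M)).under (𝓞 F)).asIdeal := by
    rw [e1, ← under_q hS hqS h1]
    exact (hS q hqS).2.2.2.2.2.2.1
  obtain ⟨hu0, hr0⟩ := hspl (𝔓.under (𝓞 M)) ⟨q, hq, hqm⟩
  have hu : UnrW L 𝔓 := unr_top htop 𝔓 hu0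
  have o1 : Ov (𝔮 q) (𝔓.under (𝓞 L)) := by
    rw [ov_iff, under_tower, ← ov_iff]
    exact h1
  have v1 : (𝔓.under (𝓞 L)).valuation L θ = 1 := by
    rw [← hu]
    exact h2
  have hcQ := cgQ hS hcq
  obtain ⟨𝔓₁, 𝔓₂, a1, a2, a3, a4, a5, a6, a7⟩ := exq g W F L f θ S 𝔮 r P hg hG hsq hS q hqS
    (hcQ q hqS)
  have vq : (𝔓.under (𝓞 L)).valuation L (q : L) = WithZero.exp (-1 : ℤ) := by
    rcases a7 _ o1 with h | h
    · rw [h]
      exact a5
    · rw [h]
      exact a6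
  have vq' : 𝔓.valuation Ω (q : Ω) = WithZero.exp (-1 : ℤ) := by
    rw [← map_natCast (algebraMap L Ω), hu]
    exact vq
  obtain ⟨c1, -, -, -⟩ := csq g W F L f θ S 𝔮 r P hg hG hsq hS q hqS (hcQ q hqS) _ o1 v1
  refine ⟨vq', fun c hc => ?_, hu0, hr0, ?_⟩
  · rw [IsScalarTower.algebraMap_apply F L Ω]
    exact sq_up hu (c1 c hc)
  · apply Pool.Agent.N891.PQ.not_ev_exp
    rw [map_mul, vq', h2, mul_one]

theorem fM_coeff (w : HeightOneSpectrum (𝓞 M)) (i : ℕ) :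
    w.valuation M (((fF f).map (algebraMap F M)).coeff i) ≤ 1 := by
  have e : ((fF f).map (algebraMap F M)).coeff i =
      algebraMap (𝓞 M) M (algebraMap (𝓞 F) (𝓞 M) (f.coeff i)) := by
    rw [coeff_map, coeff_map]
    rfl
  rw [e]
  exact HeightOneSpectrum.valuation_le_one (K := M) w _

theorem fM_root (hG : IsGen g f θ) :
    aeval (algebraMap L Ω θ) ((fF f).map (algebraMap F M)) = 0 := by
  have h1 := congrArg (algebraMap L Ω) hG.root
  rw [map_zero, ← aeval_algebraMap_apply] at h1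
  rw [aeval_map_algebraMap]
  exact h1

theorem fM_der : aeval (algebraMap L Ω θ) (derivative ((fF f).map (algebraMap F M))) =
    algebraMap L Ω (aeval θ (derivative (fF f))) := by
  rw [derivative_map, aeval_map_algebraMap, aeval_algebraMap_apply]

theorem cs_top (hg : 1 ≤ g) (hG : IsGen g f θ) (hsq : SqF g f)
    (hS : GoodS g W S 𝔮 r P) (hcq : ∀ q ∈ S, Cg (sp F q) f (P q))
    (hJS : J ⊆ S) (htop : im F M Ω ⊔ im F L Ω = ⊤)
    (hspl : ∀ w : HeightOneSpectrum (𝓞 M), (∃ q ∈ J, (q : 𝓞 F) ∈ (w.under (𝓞 F)).asIdeal) →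
      UnrW F w ∧ ResW F w)
    {D : ℕ} (hD : D = Dp J) {h : M[X]}
    (hloc : ∀ w : HeightOneSpectrum (𝓞 M), LocF (w.adicCompletion M)
      (((fF f).map (algebraMap F M)).scaleRoots (D : M)) h)
    (hne : aeval ((D : Ω) * algebraMap L Ω θ) h ≠ 0) :
    Cs (TM F M J) 𝔮 J (algebraMap L Ω θ) (algebraMap L Ω (aeval θ (derivative (fF f))))
      (aeval ((D : Ω) * algebraMap L Ω θ) h) := by
  have hqp : ∀ q ∈ S, q.Prime := fun q hq => (hS q hq).1
  have hcQ := cgQ hS hcq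
  have hmM : ((fF f).map (algebraMap F M)).Monic := (hG.mon.map _).map _
  have hdM : ((fF f).map (algebraMap F M)).natDegree = 2 * g + 1 := by
    rw [(hG.mon.map _).natDegree_map, hG.mon.natDegree_map, hG.deg]
  have hroot := fM_root (M := M) (Ω := Ω) hG
  refine ⟨fun 𝔓 h1 h2 => ?_, fun q hq 𝔓 h1 h2 => ?_⟩
  · have hund : (𝔓.under (𝓞 M)).under (𝓞 F) = 𝔓.under (𝓞 F) := under_tower (L := M) 𝔓
    have n2 : ((2 : ℕ) : 𝓞 F) ∉ ((𝔓.under (𝓞 M)).under (𝓞 F)).asIdeal := by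
      rw [hund]
      intro h3
      exact h1 (Or.inl (by exact_mod_cast h3))
    have nD : ((D : ℕ) : 𝓞 F) ∉ ((𝔓.under (𝓞 M)).under (𝓞 F)).asIdeal := by
      rw [hund]
      intro h3
      rw [hD, Dp, Nat.cast_prod] at h3
      haveI := (𝔓.under (𝓞 F)).isPrime
      obtain ⟨q, hq, hqw⟩ := (Ideal.IsPrime.prod_mem_iff).1 h3
      exact h1 (Or.inr (Or.inl ⟨q, hq, hqw⟩))
    have v2 := val_nat n2
    have vD := val_nat nD
    rw [Nat.cast_ofNat] at v2
    have e1 : (D : Ω) = algebraMap M Ω (D : M) := by simp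
    rw [e1] at hne ⊢
    exact LOC1 M Ω (𝓞 M) (𝓞 Ω) (𝔓.under (𝓞 M)) 𝔓 (lies_under 𝔓) v2 _ h (D : M)
      (algebraMap L Ω θ) hmM (by rw [hdM]; exact ⟨g, rfl⟩) (fM_coeff _) hroot
      (by rw [fM_der]; exact h2) vD (hloc _) hne
  · have hqS := hJS hq
    obtain ⟨a1, a2, a3, a4, a5, a6, a7, a8, a9, a10, a11, a12, a13, a14, a15⟩ := hS q hqS
    obtain ⟨vq, hsqc, hu0, hr0, -⟩ := q_top hg hG hsq hS hcq hJS htop hspl hq 𝔓 h1 h2
    obtain ⟨w, hw⟩ : ∃ w : HeightOneSpectrum (𝓞 M), w = 𝔓.under (𝓞 M) := ⟨_, rfl⟩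
    rw [← hw] at hu0 hr0
    have hund : w.under (𝓞 F) = 𝔓.under (𝓞 F) := by
      rw [hw]
      exact under_tower (L := M) 𝔓
    have hwq : 𝔮 q = (w.under (𝓞 F)).asIdeal := by
      rw [hund]
      exact under_q hS hqS h1
    haveI : Finite (𝓞 M ⧸ w.asIdeal) := Ideal.finiteQuotientOfFreeOfNeBot _ w.ne_bot
    haveI : Finite (𝓞 Ω ⧸ 𝔓.asIdeal) := Ideal.finiteQuotientOfFreeOfNeBot _ 𝔓.ne_bot
    have nat_mem : ∀ p : ℕ, p.Prime → (p : 𝓞 F) ∈ 𝔮 q → p = q := by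
      intro p hp hpm
      by_contra hpq
      have hco : Nat.Coprime p q := (Nat.coprime_primes hp a1).2 hpq
      obtain ⟨u, v, huv⟩ := (Nat.isCoprime_iff_coprime.2 hco)
      apply a6.ne_top
      rw [Ideal.eq_top_iff_one]
      have h9 : (1 : 𝓞 F) = (u : 𝓞 F) * (p : 𝓞 F) + (v : 𝓞 F) * (q : 𝓞 F) := by
        have := congrArg (Int.cast (R := 𝓞 F)) huv
        push_cast at this
        exact this.symm
      rw [h9]
      exact Ideal.add_mem _ (Ideal.mul_mem_left _ _ hpm) (Ideal.mul_mem_left _ _ a7)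
    have q2 : q ≠ 2 := by
      rintro rfl
      omega
    have n2 : ((2 : ℕ) : 𝓞 F) ∉ (w.under (𝓞 F)).asIdeal := by
      rw [← hwq]
      intro h3
      exact q2 (nat_mem 2 Nat.prime_two h3).symm
    obtain ⟨D', hD'⟩ : ∃ D' : ℕ, D' = ∏ p ∈ J.erase q, p := ⟨_, rfl⟩
    have hDD : D = q * D' := by
      rw [hD, hD']
      exact (Finset.mul_prod_erase J (fun P => P) hq).symm
    have hD'm : (D' : 𝓞 F) ∉ 𝔮 q := by
      intro hd
      rw [hD', Nat.cast_prod] at hd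
      haveI := a6
      obtain ⟨p, hp, hpm⟩ := (Ideal.IsPrime.prod_mem_iff).1 hd
      have hp' := Finset.mem_erase.1 hp
      exact hp'.1 (nat_mem p (hqp p (hJS hp'.2)) hpm)
    have v2 := val_nat n2
    rw [Nat.cast_ofNat] at v2
    have vD' := val_nat (w := w) (by rw [← hwq]; exact hD'm)
    have s1 : Sq1 𝔓 (-1 : Ω) := by
      have := hsqc (-1) (by
        intro hm
        apply a6.ne_top
        rw [Ideal.eq_top_iff_one]
        have := Ideal.neg_mem_iff _ |>.2 hm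
        simpa using this)
      simpa using this
    have s2 : Sq1 𝔓 (algebraMap M Ω (D' : M)) := by
      have := hsqc (D' : 𝓞 F) hD'm
      simpa using this
    have hl := hloc w
    have e7 : (D : M) = (q : M) * (D' : M) := by
      rw [hDD, Nat.cast_mul]
    rw [e7] at hl
    have e8 : (D : Ω) = algebraMap M Ω ((q : M) * (D' : M)) := by
      rw [← e7, map_natCast]
    have e9 : (q : Ω) = algebraMap M Ω (q : M) := by simp
    rw [e8] at hne ⊢
    rw [e9]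
    refine LOC2 M Ω (𝓞 M) (𝓞 Ω) w 𝔓 (hw ▸ lies_under 𝔓) v2 g _ h
      ((r q).map (algebraMap (𝓞 F) (𝓞 M))) (q : M) (D' : M) (algebraMap L Ω θ) hg hmM
      hdM (a8.map _) (by rw [a8.natDegree_map, a9]) ?_ ?_ hroot h2 (by rw [← e9]; exact vq) vD' s1 s2
      hl hne
    · exact irr_res hr0 (hwq ▸ a10)
    · intro j
      have e1 : ((fF f).map (algebraMap F M)).coeff j -
          algebraMap (𝓞 M) M ((X * (r q).map (algebraMap (𝓞 F) (𝓞 M))).coeff j) =
          algebraMap (𝓞 M) M (algebraMap (𝓞 F) (𝓞 M) (f.coeff j - (X * r q).coeff j)) := by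
        have e2 : (X * (r q).map (algebraMap (𝓞 F) (𝓞 M))) =
            (X * r q).map (algebraMap (𝓞 F) (𝓞 M)) := by
          rw [Polynomial.map_mul, map_X]
        rw [e2, coeff_map, coeff_map, coeff_map, map_sub, map_sub]
        rfl
      rw [e1]
      refine (HeightOneSpectrum.valuation_lt_one_iff_mem (K := M) w _).2 ?_
      rw [← mem_under, ← hwq]
      exact hcQ q hqS j

end Pool.Agent.H30H
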